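import Pool.Agent.H88.ENT.Cpl
import Pool.Agent.H31.BE.EntF

/-!
# ENT.Bridge: the entropy library H31/BE and the toolbox H88/ENT speak about the same objects
-/

namespace H88.ENT

open MeasureTheory Real

theorem FM_iff_Fm {Ω α : Type} [MeasurableSpace Ω] (R : Ω → α) : FM R ↔ H31.BE.Fm R := Iff.rfl

theorem H_eq_ent {Ω α : Type} [MeasurableSpace Ω] [Fintype α] (P : Measure Ω) (R : Ω → α) :
    H P R = H31.BE.ent P R := by
  rw [H31.BE.ent_eq]
  rfl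

theorem Hc_eq_entc {Ω α β : Type} [MeasurableSpace Ω] [Fintype α] [Fintype β] (P : Measure Ω)
    (R : Ω → α) (S : Ω → β) : Hc P R S = H31.BE.entc P R S := by
  unfold Hc H31.BE.entc
  rw [H_eq_ent, H_eq_ent]

/-- `coupling_of_tv` in the notation of H31/BE -/
theorem coupling_of_tv_Fm {Ω : Type} [MeasurableSpace Ω] {P : Measure Ω}
    [IsProbabilityMeasure P] {α : Type} [Fintype α] {V : Ω → α} (hV : H31.BE.Fm V)
    (e : Equiv.Perm α) {ε : ℝ}
    (h : ∑ a, |P.real (V ⁻¹' {a}) - P.real (V ⁻¹' {e a})| ≤ ε) :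
    ∃ Q : Measure (Ω × Ω), Q.map Prod.fst ≤ P ∧ Q.map Prod.snd ≤ P ∧
      (∀ᵐ z ∂Q, V z.2 = e (V z.1)) ∧ 1 - ε / 2 ≤ Q.real Set.univ :=
  coupling_of_tv hV e h

/-- `tv_of_count` in the notation of H31/BE -/
theorem tv_of_count_Fm {Ω : Type} [MeasurableSpace Ω] {P : Measure Ω} [IsProbabilityMeasure P]
    {α β : Type} [Fintype α] [Fintype β] [DecidableEq α] [DecidableEq β]
    {U : Ω → α} {R : Ω → β} (hU : H31.BE.Fm U) (hR : H31.BE.Fm R)
    (A : Finset (β × α)) (hA : ∀ w, (R w, U w) ∈ A) {N : ℕ} (hN : 0 < N)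
    (hcard : ∀ r, (A.filter (fun x => x.1 = r)).card ≤ N)
    (e : Equiv.Perm (β × α)) (he : ∀ x, (e x).1 = x.1) (heA : ∀ x, x ∈ A → e x ∈ A) :
    ∑ x : β × α, |P.real ((fun w => (R w, U w)) ⁻¹' {x})
        - P.real ((fun w => (R w, U w)) ⁻¹' {e x})|
      ≤ 4 * √(log N - H31.BE.entc P U R) := by
  rw [← Hc_eq_entc]
  exact tv_of_count hU hR A hA hN hcard e he heA

end H88.ENT
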