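import Pool.Agent.H88.ENT.B8

/-!
# ENT.B10: digits
-/

namespace H88.ENT

open MeasureTheory Real

variable {Ω : Type*} [MeasurableSpace Ω] {P : Measure Ω} [IsProbabilityMeasure P] {X : Filt Ω}
  {α β : Type*} [Fintype α] [Fintype β]

private theorem hh_inj_left {γ δ : Type*} [Fintype γ] [Fintype δ] (R : Ω → γ) (S : Ω → β)
    {g : γ → δ} (hg : Function.Injective g) :
    hh P X (fun w => g (R w)) S = hh P X R S := by
  unfold hh
  refine iInf_congr fun l => ?_
  exact Hc_comp_inj_left R (fun w => (S w, X.xi l w)) hg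

private theorem hh_inj_right {γ δ : Type*} [Fintype γ] [Fintype δ] (R : Ω → β) (S : Ω → γ)
    {g : γ → δ} (hg : Function.Injective g) :
    hh P X R (fun w => g (S w)) = hh P X R S := by
  unfold hh
  refine iInf_congr fun l => ?_
  have hi : Function.Injective (fun p : γ × X.I l => ((g p.1, p.2) : δ × X.I l)) := by
    rintro ⟨a, b⟩ ⟨a', b'⟩ h
    simp only [Prod.mk.injEq] at h
    rw [hg h.1, h.2]
  exact Hc_comp_inj_right R (fun w => (S w, X.xi l w)) hi

private theorem hh_blk_zero {γ : Type*} [Fintype γ] {S : ℕ → Ω → α} (hS : ∀ j, FM (S j))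
    {T : Ω → γ} (hT : FM T) (i : ℕ) : hh P X (blk S i 0) T = 0 := by
  refine hh_eq_zero (FM.blk hS i 0) hT ⟨0, fun _ j => j.elim0, fun w => ?_⟩
  funext j
  exact j.elim0

private theorem snoc_inj (q : ℕ) :
    Function.Injective (fun p : α × (Fin q → α) => (Fin.snoc p.2 p.1 : Fin (q + 1) → α)) := by
  rintro ⟨a, f⟩ ⟨a', f'⟩ h
  have h' : (Fin.snoc f a : Fin (q + 1) → α) = Fin.snoc f' a' := h
  have h1 : a = a' := by
    have := congrFun h' (Fin.last q)
    simpa using this
  have h2 : f = f' := by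
    funext j
    have := congrFun h' j.castSucc
    simpa using this
  rw [h1, h2]

private theorem blk_succ (S : ℕ → Ω → α) (i q : ℕ) (w : Ω) :
    blk S i (q + 1) w = (Fin.snoc (blk S i q w) (S (i + q) w) : Fin (q + 1) → α) := by
  funext j
  refine Fin.lastCases ?_ (fun j => ?_) j
  · simp [blk]
  · simp [blk]

private theorem hh_blk_succ {γ : Type*} [Fintype γ] {S : ℕ → Ω → α} (hS : ∀ j, FM (S j))
    {T : Ω → γ} (hT : FM T) (i q : ℕ) :
    hh P X (blk S i (q + 1)) T
      = hh P X (blk S i q) T + hh P X (S (i + q)) (fun w => (blk S i q w, T w)) := by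
  rw [← hh_chain (hS (i + q)) (FM.blk hS i q) hT, ← hh_inj_left _ _ (snoc_inj (α := α) q)]
  exact congrArg (fun R => hh P X R T) (funext fun w => blk_succ S i q w)

private theorem append_inj (i q : ℕ) :
    Function.Injective (fun p : (Fin q → α) × ((Fin i → α) × β) =>
      ((Fin.append p.2.1 p.1, p.2.2) : (Fin (i + q) → α) × β)) := by
  rintro ⟨f, e, b⟩ ⟨f', e', b'⟩ h
  simp only [Prod.mk.injEq] at h
  obtain ⟨h1, h2⟩ := h
  have hf : f = f' := by
    funext j
    have := congrFun h1 (Fin.natAdd i j)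
    simpa using this
  have he : e = e' := by
    funext j
    have := congrFun h1 (Fin.castAdd q j)
    simpa using this
  rw [hf, he, h2]

private theorem pre_add (S : ℕ → Ω → α) (i q : ℕ) (w : Ω) :
    pre S (i + q) w = Fin.append (pre S i w) (blk S i q w) := by
  funext j
  refine Fin.addCases (fun j => ?_) (fun j => ?_) j
  · simp [pre]
  · simp [pre, blk]

/-- chain rule for a block of digits -/
theorem hh_blk {S : ℕ → Ω → α} (hS : ∀ j, FM (S j)) {N : Ω → β} (hN : FM N) (i q : ℕ) :
    hh P X (blk S i q) (fun w => (pre S i w, N w))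
      = ∑ j ∈ Finset.range q, hh P X (S (i + j)) (fun w => (pre S (i + j) w, N w)) := by
  induction q with
  | zero =>
    rw [Finset.sum_range_zero]
    exact hh_blk_zero hS ((FM.pre hS i).prod hN) i
  | succ q ih =>
    rw [hh_blk_succ hS ((FM.pre hS i).prod hN) i q, ih, Finset.sum_range_succ]
    congr 1
    rw [← hh_inj_right (S (i + q)) _ (append_inj (α := α) (β := β) i q)]
    exact congrArg (fun R => hh P X (S (i + q)) R)
      (funext fun w => by rw [pre_add S i q w])

/-- chain rule for the first `k` digits -/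
theorem hh_pre {S : ℕ → Ω → α} (hS : ∀ j, FM (S j)) {N : Ω → β} (hN : FM N) (k : ℕ) :
    hh P X (pre S k) N
      = ∑ j ∈ Finset.range k, hh P X (S j) (fun w => (pre S j w, N w)) := by
  have key : ∀ k, (pre S k : Ω → Fin k → α) = blk S 0 k := by
    intro k
    funext w j
    simp [pre, blk]
  induction k with
  | zero =>
    rw [Finset.sum_range_zero, key 0]
    exact hh_blk_zero hS hN 0
  | succ k ih =>
    have h := hh_blk_succ (P := P) (X := X) hS hN 0 k
    rw [← key k, ← key (k + 1)] at h
    rw [h, ih, Finset.sum_range_succ, Nat.zero_add]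

/-- the entropy defect of one digit -/
private noncomputable def df (P : Measure Ω) (X : Filt Ω) (S : ℕ → Ω → α) (N : Ω → β) (j : ℕ) :
    ℝ := log (Fintype.card α) - hh P X (S j) (fun w => (pre S j w, N w))

private theorem df_nonneg {S : ℕ → Ω → α} (hS : ∀ j, FM (S j)) {N : Ω → β} (hN : FM N) (j : ℕ) :
    0 ≤ df P X S N j :=
  sub_nonneg.2 (hh_le_log_card (hS j) ((FM.pre hS j).prod hN))

private theorem defect_blk {S : ℕ → Ω → α} (hS : ∀ j, FM (S j)) {N : Ω → β} (hN : FM N)
    (i q : ℕ) :
    (q * log (Fintype.card α) - hh P X (blk S i q) (fun w => (pre S i w, N w)))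
      = ∑ j ∈ Finset.range q, df P X S N (i + j) := by
  unfold df
  rw [hh_blk hS hN i q, Finset.sum_sub_distrib, Finset.sum_const, Finset.card_range,
    nsmul_eq_mul]

private theorem defect_pre {S : ℕ → Ω → α} (hS : ∀ j, FM (S j)) {N : Ω → β} (hN : FM N)
    (k : ℕ) :
    (k * log (Fintype.card α) - hh P X (pre S k) N)
      = ∑ j ∈ Finset.range k, df P X S N j := by
  unfold df
  rw [hh_pre hS hN k, Finset.sum_sub_distrib, Finset.sum_const, Finset.card_range,
    nsmul_eq_mul]

/-- the total entropy defect of the blocks of length `q` -/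
theorem digits_sum {S : ℕ → Ω → α} (hS : ∀ j, FM (S j)) {N : Ω → β} (hN : FM N) {k q : ℕ}
    (hq : q ≤ k) :
    ∑ i ∈ Finset.range (k + 1 - q),
        (q * log (Fintype.card α) - hh P X (blk S i q) (fun w => (pre S i w, N w)))
      ≤ q * (k * log (Fintype.card α) - hh P X (pre S k) N) := by
  rw [defect_pre hS hN k, Finset.sum_congr rfl fun i _ => defect_blk hS hN i q,
    Finset.sum_comm]
  have h : ∀ j ∈ Finset.range q, ∑ i ∈ Finset.range (k + 1 - q), df P X S N (i + j)
      ≤ ∑ m ∈ Finset.range k, df P X S N m := by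
    intro j hj
    have hj' := Finset.mem_range.1 hj
    have hinj : Set.InjOn (fun i => i + j) (Finset.range (k + 1 - q) : Set ℕ) := by
      intro a _ b _ hab
      exact Nat.add_right_cancel hab
    rw [← Finset.sum_image (f := fun m => df P X S N m) hinj]
    refine Finset.sum_le_sum_of_subset_of_nonneg ?_ (fun m _ _ => df_nonneg hS hN m)
    intro m hm
    obtain ⟨i, hi, rfl⟩ := Finset.mem_image.1 hm
    have hi' := Finset.mem_range.1 hi
    exact Finset.mem_range.2 (by omega)
  refine (Finset.sum_le_sum h).trans (le_of_eq ?_)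
  rw [Finset.sum_const, Finset.card_range, nsmul_eq_mul]

/-- a block between `i₀` and `k` with small entropy defect -/
theorem exists_blk {S : ℕ → Ω → α} (hS : ∀ j, FM (S j)) {N : Ω → β} (hN : FM N) {k q i₀ : ℕ}
    (hq : i₀ + q ≤ k) :
    ∃ i, i₀ ≤ i ∧ i + q ≤ k ∧
      ((k : ℝ) + 1 - q - i₀)
          * (q * log (Fintype.card α) - hh P X (blk S i q) (fun w => (pre S i w, N w)))
        ≤ q * (k * log (Fintype.card α) - hh P X (pre S k) N) := by
  have hD : ∀ i, 0 ≤ (q * log (Fintype.card α)
      - hh P X (blk S i q) (fun w => (pre S i w, N w))) := by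
    intro i
    rw [defect_blk hS hN i q]
    exact Finset.sum_nonneg fun j _ => df_nonneg hS hN _
  have hne : (Finset.Ico i₀ (k + 1 - q)).Nonempty := by
    rw [Finset.nonempty_Ico]
    omega
  obtain ⟨i, hi, hmin⟩ := Finset.exists_min_image (Finset.Ico i₀ (k + 1 - q))
    (fun i => (q * log (Fintype.card α) - hh P X (blk S i q) (fun w => (pre S i w, N w)))) hne
  obtain ⟨hi1, hi2⟩ := Finset.mem_Ico.1 hi
  refine ⟨i, hi1, by omega, ?_⟩
  refine le_trans ?_ (digits_sum (P := P) (X := X) hS hN (show q ≤ k by omega))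
  have hsub : Finset.Ico i₀ (k + 1 - q) ⊆ Finset.range (k + 1 - q) := by
    intro m hm
    exact Finset.mem_range.2 (Finset.mem_Ico.1 hm).2
  refine le_trans ?_ (Finset.sum_le_sum_of_subset_of_nonneg hsub fun m _ _ => hD m)
  have hc := Finset.card_nsmul_le_sum (Finset.Ico i₀ (k + 1 - q))
    (fun i => (q * log (Fintype.card α) - hh P X (blk S i q) (fun w => (pre S i w, N w)))) _
    hmin
  rw [Nat.card_Ico, nsmul_eq_mul] at hc
  have hcast : ((k + 1 - q - i₀ : ℕ) : ℝ) = (k : ℝ) + 1 - q - i₀ := by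
    rw [Nat.cast_sub (by omega), Nat.cast_sub (by omega)]
    push_cast
    ring
  rw [hcast] at hc
  exact hc

end H88.ENT
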