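import Pool.Agent.H88.ENT.Defs

/-!
# ENT.B1: fibre measurability and sums of the probabilities of fibres
-/

namespace H88.ENT

open MeasureTheory

variable {Ω : Type*} [MeasurableSpace Ω] {α β γ : Type*}

theorem FM.of_measurable [MeasurableSpace α] [MeasurableSingletonClass α] {R : Ω → α}
    (h : Measurable R) : FM R := by
  intro a
  exact h (measurableSet_singleton a)

theorem FM.set [Finite α] {R : Ω → α} (hR : FM R) (s : Set α) : MeasurableSet (R ⁻¹' s) := by
  have h : R ⁻¹' s = ⋃ a ∈ s, R ⁻¹' {a} := by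
    ext w
    simp
  rw [h]
  exact MeasurableSet.biUnion (Set.to_countable s) fun a _ => hR a

theorem FM.prod {R : Ω → α} {S : Ω → β} (hR : FM R) (hS : FM S) :
    FM (fun w => (R w, S w)) := by
  intro p
  have h : (fun w => (R w, S w)) ⁻¹' {p} = R ⁻¹' {p.1} ∩ S ⁻¹' {p.2} := by
    ext w
    simp [Prod.ext_iff]
  rw [h]
  exact (hR p.1).inter (hS p.2)

theorem FM.map [Finite α] {R : Ω → α} (hR : FM R) (g : α → β) : FM (fun w => g (R w)) := by
  intro b
  exact hR.set (g ⁻¹' {b})

theorem FM.comp_measurable {R : Ω → α} (hR : FM R) {b : Ω → Ω} (hb : Measurable b) :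
    FM (fun w => R (b w)) := by
  intro a
  exact hb (hR a)

theorem FM.pi {ι : Type*} [Finite ι] {A : ι → Type*} {R : ∀ i, Ω → A i} (h : ∀ i, FM (R i)) :
    FM (fun w i => R i w) := by
  intro f
  have h1 : (fun w i => R i w) ⁻¹' {f} = ⋂ i, R i ⁻¹' {f i} := by
    ext w
    simp [funext_iff]
  rw [h1]
  exact MeasurableSet.iInter fun i => h i (f i)

theorem FM.const (a : α) : FM (fun _ : Ω => a) := by
  intro b
  exact MeasurableSet.const (a ∈ ({b} : Set α))

/-- a fibre measurable function with finite values is measurable for every sigma-algebra -/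
theorem FM.measurable [Finite α] [MeasurableSpace α] {R : Ω → α} (hR : FM R) : Measurable R := by
  intro s _
  exact hR.set s

theorem FM.word {Z : Ω → α} (hZ : FM Z) {b : Ω → Ω} (hb : Measurable b) (n : ℕ) :
    FM (word Z b n) := by
  exact FM.pi (A := fun _ : Fin n => α) (R := fun i w => Z (b^[i] w)) fun i =>
    hZ.comp_measurable (hb.iterate i)

theorem FM.pre {S : ℕ → Ω → α} (hS : ∀ j, FM (S j)) (n : ℕ) : FM (pre S n) := by
  exact FM.pi (A := fun _ : Fin n => α) (R := fun i => S i) fun i => hS i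

theorem FM.blk {S : ℕ → Ω → α} (hS : ∀ j, FM (S j)) (i q : ℕ) : FM (blk S i q) := by
  exact FM.pi (A := fun _ : Fin q => α) (R := fun j => S (i + j)) fun j => hS (i + j)

variable {P : Measure Ω} [IsProbabilityMeasure P]

/-- the probability of an event described by `R` is the sum of the probabilities of the values -/
theorem real_preimage [Fintype α] {R : Ω → α} (hR : FM R) (s : Finset α) :
    P.real (R ⁻¹' (s : Set α)) = ∑ a ∈ s, P.real (R ⁻¹' {a}) := by
  exact (sum_measureReal_preimage_singleton s fun a _ => hR a).symm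

theorem sum_real_fibre [Fintype α] {R : Ω → α} (hR : FM R) :
    ∑ a, P.real (R ⁻¹' {a}) = 1 := by
  rw [← real_preimage hR Finset.univ, Finset.coe_univ, Set.preimage_univ]
  exact probReal_univ

/-- marginals -/
theorem sum_real_pair [Fintype α] {R : Ω → α} {S : Ω → β} (hR : FM R) (hS : FM S) (b : β) :
    ∑ a, P.real ((fun w => (R w, S w)) ⁻¹' {(a, b)}) = P.real (S ⁻¹' {b}) := by
  have h1 : ∀ a, (fun w => (R w, S w)) ⁻¹' {(a, b)} = R ⁻¹' {a} ∩ S ⁻¹' {b} := by
    intro a
    ext w
    simp
  have h2 : S ⁻¹' {b} = ⋃ a ∈ (Finset.univ : Finset α), R ⁻¹' {a} ∩ S ⁻¹' {b} := by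
    ext w
    simp
  rw [h2, measureReal_biUnion_finset]
  · exact Finset.sum_congr rfl fun a _ => by rw [h1 a]
  · intro a _ a' _ haa
    refine Set.disjoint_left.2 fun w hw hw' => haa ?_
    have e1 : R w = a := hw.1
    have e2 : R w = a' := hw'.1
    rw [← e1, ← e2]
  · exact fun a _ => (hR a).inter (hS b)

/-- probabilities of the values of a function of `R` -/
theorem real_map [Fintype α] [DecidableEq β] {R : Ω → α} (hR : FM R) (g : α → β) (b : β) :
    P.real ((fun w => g (R w)) ⁻¹' {b})
      = ∑ a ∈ Finset.univ.filter (fun a => g a = b), P.real (R ⁻¹' {a}) := by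
  rw [← real_preimage hR]
  congr 1
  ext w
  simp

end H88.ENT
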