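import Pool.Agent.H88.ENT.B4

/-!
# ENT.B7: the entropy `hh` relative to a refining sequence of partitions: basic properties

`Hc P R (fun w => (S w, X.xi l w))` is antitone in `l` (`Hc_anti` and `X.fac`) and bounded below
by zero, so it tends to `hh P X R S`; the chain rule is the limit of `Hc_chain`.
-/

namespace H88.ENT

open MeasureTheory Real Filter Topology

variable {Ω : Type*} [MeasurableSpace Ω] {P : Measure Ω} [IsProbabilityMeasure P] {X : Filt Ω}
  {α β γ δ : Type*} [Fintype α] [Fintype β] [Fintype γ] [Fintype δ]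

/-- partition `l` is a function of partition `m`, `l ≤ m` -/
theorem Filt.fac_le (X : Filt Ω) {l m : ℕ} (h : l ≤ m) :
    ∃ g : X.I m → X.I l, ∀ w, X.xi l w = g (X.xi m w) := by
  induction h with
  | refl => exact ⟨id, fun w => rfl⟩
  | @step m _ ih =>
    obtain ⟨g, hg⟩ := ih
    obtain ⟨k, hk⟩ := X.fac m
    exact ⟨fun i => g (k i), fun w => by rw [hg w, hk w]⟩

/-- the level in `Det` can be increased -/
theorem Det.exists_ge {S : Ω → β} {T : Ω → α} (h : Det X S T) :
    ∃ l, ∀ m, l ≤ m → ∃ g : β × X.I m → α, ∀ w, T w = g (S w, X.xi m w) := by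
  obtain ⟨l, g, hg⟩ := h
  refine ⟨l, fun m hm => ?_⟩
  obtain ⟨k, hk⟩ := X.fac_le hm
  exact ⟨fun p => g (p.1, k p.2), fun w => by rw [hg w, hk w]⟩

theorem Hc_xi_antitone {R : Ω → α} {S : Ω → β} (hR : FM R) (hS : FM S) :
    Antitone (fun l => Hc P R (fun w => (S w, X.xi l w))) := by
  intro l m hlm
  obtain ⟨g, hg⟩ := X.fac_le hlm
  have h := Hc_anti (P := P) hR (hS.prod (X.meas m)) (fun p : β × X.I m => (p.1, g p.2))
  have e : (fun w => (S w, X.xi l w)) = fun w => (S w, g (X.xi m w)) := by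
    funext w
    rw [hg w]
  change Hc P R (fun w => (S w, X.xi m w)) ≤ Hc P R (fun w => (S w, X.xi l w))
  rw [e]
  exact h

private theorem b7_bdd {R : Ω → α} {S : Ω → β} (hR : FM R) (hS : FM S) :
    BddBelow (Set.range fun l => Hc P R (fun w => (S w, X.xi l w))) := by
  refine ⟨0, ?_⟩
  rintro _ ⟨l, rfl⟩
  exact Hc_nonneg hR (hS.prod (X.meas l))

theorem hh_tendsto {R : Ω → α} {S : Ω → β} (hR : FM R) (hS : FM S) :
    Tendsto (fun l => Hc P R (fun w => (S w, X.xi l w))) atTop (𝓝 (hh P X R S)) := by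
  exact tendsto_atTop_ciInf (Hc_xi_antitone hR hS) (b7_bdd hR hS)

theorem hh_le {R : Ω → α} {S : Ω → β} (hR : FM R) (hS : FM S) (l : ℕ) :
    hh P X R S ≤ Hc P R (fun w => (S w, X.xi l w)) := by
  exact ciInf_le (b7_bdd hR hS) l

theorem le_hh {R : Ω → α} {S : Ω → β} {c : ℝ}
    (h : ∀ l, c ≤ Hc P R (fun w => (S w, X.xi l w))) : c ≤ hh P X R S := by
  exact le_ciInf h

theorem hh_nonneg {R : Ω → α} {S : Ω → β} (hR : FM R) (hS : FM S) : 0 ≤ hh P X R S := by
  exact le_hh fun l => Hc_nonneg hR (hS.prod (X.meas l))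

theorem hh_le_log_card {R : Ω → α} {S : Ω → β} (hR : FM R) (hS : FM S) :
    hh P X R S ≤ log (Fintype.card α) := by
  exact (hh_le hR hS 0).trans (Hc_le_log_card hR (hS.prod (X.meas 0)))

/-- chain rule -/
theorem hh_chain {R : Ω → α} {S : Ω → β} {T : Ω → γ} (hR : FM R) (hS : FM S) (hT : FM T) :
    hh P X (fun w => (R w, S w)) T = hh P X S T + hh P X R (fun w => (S w, T w)) := by
  have h1 := hh_tendsto (P := P) (X := X) (hR.prod hS) hT
  have h2 := hh_tendsto (P := P) (X := X) hS hT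
  have h3 := hh_tendsto (P := P) (X := X) hR (hS.prod hT)
  refine tendsto_nhds_unique h1 ((h2.add h3).congr fun l => ?_)
  have hinj : Function.Injective (fun p : β × (γ × X.I l) => ((p.1, p.2.1), p.2.2)) := by
    rintro ⟨a, b, c⟩ ⟨a', b', c'⟩ h
    simp only [Prod.mk.injEq] at h
    obtain ⟨⟨h4, h5⟩, h6⟩ := h
    rw [h4, h5, h6]
  have h4 := Hc_comp_inj_right (P := P) R (fun w => (S w, (T w, X.xi l w))) hinj
  have h5 := Hc_chain (P := P) R S (fun w => (T w, X.xi l w))
  rw [h5]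
  exact congrArg (fun x => Hc P S (fun w => (T w, X.xi l w)) + x) h4

end H88.ENT
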