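import Pool.Agent.H88.ENT.B6
import Pool.Agent.H88.ENT.B7

/-!
# ENT.B11: coupling lemma

For `e : Equiv.Perm α` and finite valued `T : Ω → α`, `N : Ω → β` let
`A (a, n) = {T = a, N = n}` and
`Q = ∑_{a, n} min (P (A (a, n))) (P (A (e a, n))) / (P (A (a, n)) * P (A (e a, n)))
     • (P.restrict (A (a, n))).prod (P.restrict (A (e a, n)))`.
The marginals are at most `P` and the mass is the sum of the minima, which is at least
`1 - 2 √(log (card α) - Hc P T N)` by `tv_le`
(`min x y = (x + y - |x - y|) / 2`, `|x - y| ≤ |x - m| + |m - y|`).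
-/

namespace H88.ENT

open MeasureTheory Real Filter Topology

variable {Ω : Type*} [MeasurableSpace Ω] {P : Measure Ω} [IsProbabilityMeasure P] {X : Filt Ω}
  {α β : Type*} [Fintype α] [Fintype β]

omit [MeasurableSpace Ω] [Fintype α] [Fintype β] in
private theorem b11_fib (T : Ω → α) (N : Ω → β) (a : α) (n : β) :
    (fun w => (T w, N w)) ⁻¹' {(a, n)} = T ⁻¹' {a} ∩ N ⁻¹' {n} := by
  ext w
  simp

/-- the sum of the minima -/
theorem sum_min_ge [Nonempty α] {T : Ω → α} {N : Ω → β} (hT : FM T) (hN : FM N)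
    (e : Equiv.Perm α) :
    1 - 2 * √(log (Fintype.card α) - Hc P T N)
      ≤ ∑ a, ∑ n, min (P.real (T ⁻¹' {a} ∩ N ⁻¹' {n})) (P.real (T ⁻¹' {e a} ∩ N ⁻¹' {n})) := by
  classical
  have h1 := tv_le (P := P) hT hN
  set x : α → β → ℝ := fun a n => P.real (T ⁻¹' {a} ∩ N ⁻¹' {n}) with hx
  set m : β → ℝ := fun n => P.real (N ⁻¹' {n}) / Fintype.card α with hm
  have h2 : ∑ a, ∑ n, |x a n - m n| ≤ 2 * √(log (Fintype.card α) - Hc P T N) := by
    refine le_trans (le_of_eq ?_) h1
    refine Finset.sum_congr rfl fun a _ => Finset.sum_congr rfl fun n _ => ?_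
    rw [b11_fib]
  have h3 : ∑ a, ∑ n, x a n = 1 := by
    rw [Finset.sum_comm, ← sum_real_fibre (P := P) hN]
    refine Finset.sum_congr rfl fun n _ => ?_
    rw [← sum_real_pair hT hN n]
    refine Finset.sum_congr rfl fun a _ => ?_
    rw [b11_fib]
  have h4 : ∑ a, ∑ n, x (e a) n = 1 := by
    rw [← h3]
    exact Equiv.sum_comp e fun a => ∑ n, x a n
  have h5 : ∑ a, ∑ n, |x (e a) n - m n| = ∑ a, ∑ n, |x a n - m n| :=
    Equiv.sum_comp e fun a => ∑ n, |x a n - m n|
  have h6 : ∀ a n, (x a n + x (e a) n) / 2 - (|x a n - m n| + |x (e a) n - m n|) / 2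
      ≤ min (x a n) (x (e a) n) := by
    intro a n
    have h7 : |x a n - x (e a) n| ≤ |x a n - m n| + |x (e a) n - m n| := by
      have h8 := abs_sub_le (x a n) (m n) (x (e a) n)
      rw [abs_sub_comm (m n) (x (e a) n)] at h8
      exact h8
    rcases le_total (x a n) (x (e a) n) with h11 | h11
    · rw [min_eq_left h11]
      have := neg_abs_le (x a n - x (e a) n)
      linarith
    · rw [min_eq_right h11]
      have := le_abs_self (x a n - x (e a) n)
      linarith
  have h9 : ∑ a, ∑ n, ((x a n + x (e a) n) / 2 - (|x a n - m n| + |x (e a) n - m n|) / 2)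
      ≤ ∑ a, ∑ n, min (x a n) (x (e a) n) :=
    Finset.sum_le_sum fun a _ => Finset.sum_le_sum fun n _ => h6 a n
  have h10 : ∑ a, ∑ n, ((x a n + x (e a) n) / 2 - (|x a n - m n| + |x (e a) n - m n|) / 2)
      = (∑ a, ∑ n, x a n + ∑ a, ∑ n, x (e a) n) / 2
        - (∑ a, ∑ n, |x a n - m n| + ∑ a, ∑ n, |x (e a) n - m n|) / 2 := by
    simp only [Finset.sum_sub_distrib, Finset.sum_add_distrib, ← Finset.sum_div]
  rw [h10, h3, h4, h5] at h9
  linarith

/-- coupling lemma for finite valued functions -/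
theorem exists_coupling [Nonempty α] {T : Ω → α} {N : Ω → β} (hT : FM T) (hN : FM N)
    (e : Equiv.Perm α) :
    ∃ Q : Measure (Ω × Ω), Q.map Prod.fst ≤ P ∧ Q.map Prod.snd ≤ P ∧
      (∀ᵐ z ∂Q, N z.2 = N z.1 ∧ T z.2 = e (T z.1)) ∧
      1 - 2 * √(log (Fintype.card α) - Hc P T N) ≤ Q.real Set.univ := by
  classical
  set A : α × β → Set Ω := fun p => T ⁻¹' {p.1} ∩ N ⁻¹' {p.2} with hA
  set A' : α × β → Set Ω := fun p => T ⁻¹' {e p.1} ∩ N ⁻¹' {p.2} with hA'
  have hAm : ∀ p, MeasurableSet (A p) := fun p => (hT p.1).inter (hN p.2)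
  have hAm' : ∀ p, MeasurableSet (A' p) := fun p => (hT (e p.1)).inter (hN p.2)
  set c : α × β → ENNReal := fun p => min (P (A p)) (P (A' p)) / (P (A p) * P (A' p)) with hc
  set Q : Measure (Ω × Ω) :=
    ∑ p, c p • ((P.restrict (A p)).prod (P.restrict (A' p))) with hQ
  have hQs : ∀ s : Set (Ω × Ω), Q s
      = ∑ p, c p * ((P.restrict (A p)).prod (P.restrict (A' p))) s := by
    intro s
    rw [hQ, Measure.finsetSum_apply]
    rfl
  -- the sets form a partition
  have hpart : ∀ s : Set Ω, MeasurableSet s → ∑ p, P (s ∩ A p) = P s := by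
    intro s hs
    have h1 : s = ⋃ p ∈ (Finset.univ : Finset (α × β)), s ∩ A p := by
      ext w
      simp [hA]
    have h2 : P (⋃ p ∈ (Finset.univ : Finset (α × β)), s ∩ A p) = ∑ p, P (s ∩ A p) := by
      refine measure_biUnion_finset ?_ fun p _ => hs.inter (hAm p)
      intro p _ q _ hpq
      refine Set.disjoint_left.2 fun w hw hw' => hpq ?_
      obtain ⟨-, h3, h4⟩ := hw
      obtain ⟨-, h5, h6⟩ := hw'
      exact Prod.ext (h3.symm.trans h5) (h4.symm.trans h6)
    rw [← h2, ← h1]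
  have hpart' : ∀ s : Set Ω, MeasurableSet s → ∑ p, P (s ∩ A' p) = P s := by
    intro s hs
    rw [← hpart s hs]
    exact Equiv.sum_comp (e.prodCongr (Equiv.refl β)) fun p => P (s ∩ A p)
  have hle : ∀ x y z : ENNReal, x ≠ ⊤ → y ≠ ⊤ → z ≤ x →
      min x y / (x * y) * (z * y) ≤ z := by
    intro x y z hx hy hz
    rcases eq_or_ne y 0 with h0 | h0
    · simp [h0]
    rcases eq_or_ne x 0 with h1 | h1
    · have : z = 0 := le_antisymm (hz.trans h1.le) zero_le
      simp [this]
    · calc min x y / (x * y) * (z * y) ≤ x / (x * y) * (z * y) := by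
            gcongr
            exact min_le_left _ _
        _ = z * ((x * y) / (x * y)) := by
            rw [div_eq_mul_inv, div_eq_mul_inv]
            ring
        _ ≤ z := by
            rw [ENNReal.div_self (mul_ne_zero h1 h0) (ENNReal.mul_ne_top hx hy), mul_one]
  refine ⟨Q, ?_, ?_, ?_, ?_⟩
  · refine Measure.le_iff.2 fun s hs => ?_
    rw [Measure.map_apply measurable_fst hs, hQs]
    have h1 : (Prod.fst ⁻¹' s : Set (Ω × Ω)) = s ×ˢ Set.univ := by
      ext z
      simp
    rw [← hpart s hs]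
    refine Finset.sum_le_sum fun p _ => ?_
    rw [h1, Measure.prod_prod, Measure.restrict_apply hs, Measure.restrict_apply_univ]
    exact hle _ _ _ (measure_ne_top _ _) (measure_ne_top _ _) (measure_mono Set.inter_subset_right)
  · refine Measure.le_iff.2 fun s hs => ?_
    rw [Measure.map_apply measurable_snd hs, hQs]
    have h1 : (Prod.snd ⁻¹' s : Set (Ω × Ω)) = Set.univ ×ˢ s := by
      ext z
      simp
    rw [← hpart' s hs]
    refine Finset.sum_le_sum fun p _ => ?_
    rw [h1, Measure.prod_prod, Measure.restrict_apply hs, Measure.restrict_apply_univ]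
    have h2 := hle (P (A' p)) (P (A p)) (P (s ∩ A' p)) (measure_ne_top _ _) (measure_ne_top _ _)
      (measure_mono Set.inter_subset_right)
    rw [min_comm, mul_comm (P (A' p)) (P (A p)), mul_comm (P (s ∩ A' p)) (P (A p))] at h2
    exact h2
  · rw [ae_iff, hQs]
    refine Finset.sum_eq_zero fun p _ => ?_
    rw [Measure.prod_restrict]
    have h1 : ∀ᵐ z ∂((P.prod P).restrict (A p ×ˢ A' p)),
        N z.2 = N z.1 ∧ T z.2 = e (T z.1) := by
      filter_upwards [ae_restrict_mem ((hAm p).prod (hAm' p))] with z hz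
      obtain ⟨⟨h3, h4⟩, h5, h6⟩ := hz
      have h3' : T z.1 = p.1 := h3
      have h4' : N z.1 = p.2 := h4
      have h5' : T z.2 = e p.1 := h5
      have h6' : N z.2 = p.2 := h6
      exact ⟨by rw [h6', h4'], by rw [h5', h3']⟩
    rw [ae_iff.1 h1, mul_zero]
  · refine (sum_min_ge hT hN e).trans (le_of_eq ?_)
    have h1 : Q Set.univ = ∑ p, min (P (A p)) (P (A' p)) := by
      rw [hQs]
      refine Finset.sum_congr rfl fun p _ => ?_
      rw [← Set.univ_prod_univ, Measure.prod_prod, Measure.restrict_apply_univ,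
        Measure.restrict_apply_univ]
      rcases eq_or_ne (P (A p)) 0 with h0 | h0
      · simp [h0]
      rcases eq_or_ne (P (A' p)) 0 with h0' | h0'
      · simp [h0']
      · exact ENNReal.div_mul_cancel (mul_ne_zero h0 h0')
          (ENNReal.mul_ne_top (measure_ne_top _ _) (measure_ne_top _ _))
    rw [measureReal_def, h1, ENNReal.toReal_sum
      (fun p _ => ne_top_of_le_ne_top (measure_ne_top P (A p)) (min_le_left _ _)),
      Fintype.sum_prod_type]
    refine Finset.sum_congr rfl fun a _ => Finset.sum_congr rfl fun n _ => ?_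
    rw [ENNReal.toReal_min (measure_ne_top _ _) (measure_ne_top _ _)]
    rfl

/-- coupling lemma with a partition of `X` -/
theorem exists_coupling_hh [Nonempty α] {T : Ω → α} {N : Ω → β} (hT : FM T) (hN : FM N)
    (e : Equiv.Perm α) (l : ℕ) :
    ∃ Q : Measure (Ω × Ω), Q.map Prod.fst ≤ P ∧ Q.map Prod.snd ≤ P ∧
      (∀ᵐ z ∂Q, N z.2 = N z.1 ∧ X.xi l z.2 = X.xi l z.1 ∧ T z.2 = e (T z.1)) ∧
      1 - 2 * √(log (Fintype.card α) - hh P X T N) ≤ Q.real Set.univ := by
  obtain ⟨Q, h1, h2, h3, h4⟩ := exists_coupling (P := P) hT (hN.prod (X.meas l)) e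
  refine ⟨Q, h1, h2, ?_, ?_⟩
  · filter_upwards [h3] with z hz
    have h5 := Prod.mk.inj hz.1
    exact ⟨h5.1, h5.2, hz.2⟩
  · have h5 := hh_le (P := P) (X := X) hT hN l
    have h6 : √(log (Fintype.card α) - Hc P T (fun w => (N w, X.xi l w)))
        ≤ √(log (Fintype.card α) - hh P X T N) := sqrt_le_sqrt (by linarith)
    linarith

/-- events of small probability under a subcoupling -/
theorem coupling_event {Q : Measure (Ω × Ω)} (h1 : Q.map Prod.fst ≤ P)
    (h2 : Q.map Prod.snd ≤ P) {E F : Set Ω} (hE : MeasurableSet E) (hF : MeasurableSet F) :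
    Q {z | z.1 ∈ E ∨ z.2 ∈ F} ≤ P E + P F := by
  have h3 : {z : Ω × Ω | z.1 ∈ E ∨ z.2 ∈ F} = Prod.fst ⁻¹' E ∪ Prod.snd ⁻¹' F := by
    ext z
    simp
  rw [h3]
  refine (measure_union_le _ _).trans (add_le_add ?_ ?_)
  · rw [← Measure.map_apply measurable_fst hE]
    exact h1 E
  · rw [← Measure.map_apply measurable_snd hF]
    exact h2 F

private theorem b11_integral {Q : Measure (Ω × Ω)} {g : Ω × Ω → Ω} (hg : Measurable g)
    (h1 : Q.map g ≤ P) {ε : ℝ}
    (hm : 1 - ε ≤ Q.real Set.univ) {f : Ω → ℝ} (hf : Measurable f) {B : ℝ}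
    (hB : ∀ x, |f x| ≤ B) : |∫ z, f (g z) ∂Q - ∫ x, f x ∂P| ≤ B * ε := by
  set μ := Q.map g with hμ
  have hμf : IsFiniteMeasure μ := ⟨(h1 Set.univ).trans_lt (measure_lt_top P _)⟩
  have hQu : μ Set.univ = Q Set.univ := by
    rw [hμ, Measure.map_apply hg MeasurableSet.univ, Set.preimage_univ]
  set ν := P - μ with hν
  have hadd : ν + μ = P := Measure.sub_add_cancel_of_le h1
  have hνf : IsFiniteMeasure ν := by
    refine ⟨lt_of_le_of_lt ?_ (measure_lt_top P Set.univ)⟩
    exact Measure.sub_le (μ := P) (ν := μ) Set.univ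
  have hi : ∀ κ : Measure Ω, IsFiniteMeasure κ → Integrable f κ := by
    intro κ hκ
    exact Integrable.of_bound hf.aestronglyMeasurable B (ae_of_all _ fun x => by
      rw [Real.norm_eq_abs]
      exact hB x)
  have h2 : ∫ z, f (g z) ∂Q = ∫ x, f x ∂μ := by
    rw [hμ, integral_map hg.aemeasurable hf.aestronglyMeasurable]
  have h3 : ∫ x, f x ∂P = ∫ x, f x ∂ν + ∫ x, f x ∂μ := by
    rw [← integral_add_measure (hi ν hνf) (hi μ hμf), hadd]
  have h4 : ν.real Set.univ + μ.real Set.univ = 1 := by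
    rw [← measureReal_add_apply, hadd]
    exact probReal_univ
  have h5 : μ.real Set.univ = Q.real Set.univ := by
    rw [measureReal_def, measureReal_def, hQu]
  have h6 : |∫ x, f x ∂ν| ≤ B * ν.real Set.univ := by
    have h7 := norm_integral_le_of_norm_le_const (μ := ν) (f := f) (C := B) (ae_of_all _ fun x => by
      rw [Real.norm_eq_abs]
      exact hB x)
    rwa [Real.norm_eq_abs] at h7
  have hne : Nonempty Ω := by
    by_contra h
    rw [not_nonempty_iff] at h
    have h7 : P Set.univ = 1 := measure_univ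
    rw [Set.univ_eq_empty_iff.2 h, measure_empty] at h7
    exact zero_ne_one h7
  obtain ⟨x₀⟩ := hne
  have hB0 : 0 ≤ B := (abs_nonneg _).trans (hB x₀)
  rw [h2, h3]
  have h8 : ∫ x, f x ∂μ - (∫ x, f x ∂ν + ∫ x, f x ∂μ) = - ∫ x, f x ∂ν := by ring
  rw [h8, abs_neg]
  exact h6.trans (mul_le_mul_of_nonneg_left (by linarith) hB0)

/-- integrals of bounded functions of the first point -/
theorem coupling_integral_fst {Q : Measure (Ω × Ω)} (h1 : Q.map Prod.fst ≤ P) {ε : ℝ}
    (hm : 1 - ε ≤ Q.real Set.univ) {f : Ω → ℝ} (hf : Measurable f) {B : ℝ}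
    (hB : ∀ x, |f x| ≤ B) : |∫ z, f z.1 ∂Q - ∫ x, f x ∂P| ≤ B * ε := by
  exact b11_integral measurable_fst h1 hm hf hB

/-- integrals of bounded functions of the second point -/
theorem coupling_integral_snd {Q : Measure (Ω × Ω)} (h2 : Q.map Prod.snd ≤ P) {ε : ℝ}
    (hm : 1 - ε ≤ Q.real Set.univ) {f : Ω → ℝ} (hf : Measurable f) {B : ℝ}
    (hB : ∀ x, |f x| ≤ B) : |∫ z, f z.2 ∂Q - ∫ x, f x ∂P| ≤ B * ε := by
  exact b11_integral measurable_snd h2 hm hf hB

end H88.ENT
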