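import Mathlib

/-!
# ENT.B12: pigeonhole for sequences of real numbers
-/

namespace H88.ENT

/-- with a bound on the number of steps -/
theorem exists_step_lt (a : ℕ → ℝ) {ε : ℝ} {n : ℕ} (hn0 : 0 < n) (h0 : 0 ≤ a n)
    (hn : a 0 ≤ n * ε) : ∃ q, q < n ∧ a q - ε ≤ a (q + 1) := by
  by_contra hcon
  push Not at hcon
  have h : ∀ q, q ≤ n → 0 < q → a q < a 0 - q * ε := by
    intro q
    induction q with
    | zero => intro _ h; exact absurd h (lt_irrefl _)
    | succ q ih =>
      intro hq _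
      have h1 := hcon q (by omega)
      rcases Nat.eq_zero_or_pos q with h2 | h2
      · subst h2
        push_cast
        linarith
      · have h3 := ih (by omega) h2
        push_cast
        linarith
  have h1 := h n le_rfl hn0
  linarith

/-- a nonnegative sequence cannot always decrease by `ε` -/
theorem exists_step (a : ℕ → ℝ) (h0 : ∀ q, 0 ≤ a q) {ε : ℝ} (hε : 0 < ε) (q₀ : ℕ) :
    ∃ q, q₀ ≤ q ∧ a q - ε ≤ a (q + 1) := by
  obtain ⟨n, hn⟩ := exists_nat_ge (a q₀ / ε)
  have h1 : a q₀ ≤ ((n + 1 : ℕ) : ℝ) * ε := by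
    rw [div_le_iff₀ hε] at hn
    push_cast
    nlinarith
  obtain ⟨q, _, hq⟩ := exists_step_lt (fun j => a (q₀ + j)) (Nat.succ_pos n)
    (h0 _) (by simpa using h1)
  exact ⟨q₀ + q, Nat.le_add_right _ _, hq⟩

end H88.ENT
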