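import Pool.Agent.H88.ENT.Defs

/-!
# ENT.B2: inequalities for finite families of nonnegative numbers

`gibbs`: `x log x - x log y ≥ x - y` (and `x = 0` where `y = 0`), summed.
`gibbs_sqrt`: the stronger form with `(√x - √y) ^ 2`: from `log u ≤ u - 1` with
`u = √(y / x)`: `x log (x / y) = - 2 x log u ≥ 2 x - 2 √x √y = (x - y) + (√x - √y) ^ 2`.
`tv_sqrt`: Cauchy-Schwarz: `(∑ |x - y|)^2 ≤ ∑ (√x - √y)^2 * ∑ (√x + √y)^2 ≤ 4 ∑ (√x - √y)^2`.
-/

namespace H88.ENT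

open Real

variable {α : Type*}

private theorem b2_point (x y : ℝ) (hx : 0 ≤ x) (hy : 0 ≤ y) (hxy : y = 0 → x = 0) :
    (x - y) + (√x - √y) ^ 2 ≤ x * log x - x * log y := by
  rcases hx.eq_or_lt with h0 | h0
  · subst h0
    have h1 : (√y) ^ 2 = y := sq_sqrt hy
    simp only [sqrt_zero, zero_mul]
    nlinarith [h1]
  · have hy0 : 0 < y := by
      rcases hy.eq_or_lt with h | h
      · exact absurd (hxy h.symm) h0.ne'
      · exact h
    have hsx : 0 < √x := sqrt_pos.2 h0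
    have hsy : 0 < √y := sqrt_pos.2 hy0
    have h1 : (√x) ^ 2 = x := sq_sqrt hx
    have h2 : (√y) ^ 2 = y := sq_sqrt hy
    have h3 := log_le_sub_one_of_pos (div_pos hsy hsx)
    have h4 : log (√y / √x) = log y / 2 - log x / 2 := by
      rw [log_div hsy.ne' hsx.ne', log_sqrt hy, log_sqrt hx]
    rw [h4] at h3
    have h5 : x * (log y / 2 - log x / 2) ≤ x * (√y / √x - 1) :=
      mul_le_mul_of_nonneg_left h3 h0.le
    have h6 : x * (√y / √x - 1) = √x * √y - x := by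
      rw [mul_sub, mul_one]
      congr 1
      nth_rewrite 1 [← h1]
      field_simp
    rw [h6] at h5
    nlinarith [h5, h1, h2]

/-- Gibbs inequality with a square root remainder -/
theorem gibbs_sqrt (s : Finset α) (x y : α → ℝ) (hx : ∀ a ∈ s, 0 ≤ x a) (hy : ∀ a ∈ s, 0 ≤ y a)
    (hxy : ∀ a ∈ s, y a = 0 → x a = 0) :
    ∑ a ∈ s, (x a - y a) + ∑ a ∈ s, (√(x a) - √(y a)) ^ 2
      ≤ ∑ a ∈ s, (x a * log (x a) - x a * log (y a)) := by
  rw [← Finset.sum_add_distrib]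
  exact Finset.sum_le_sum fun a ha => b2_point _ _ (hx a ha) (hy a ha) (hxy a ha)

/-- Gibbs inequality -/
theorem gibbs (s : Finset α) (x y : α → ℝ) (hx : ∀ a ∈ s, 0 ≤ x a) (hy : ∀ a ∈ s, 0 ≤ y a)
    (hxy : ∀ a ∈ s, y a = 0 → x a = 0) :
    ∑ a ∈ s, (x a - y a) ≤ ∑ a ∈ s, (x a * log (x a) - x a * log (y a)) := by
  have h := gibbs_sqrt s x y hx hy hxy
  have h1 : 0 ≤ ∑ a ∈ s, (√(x a) - √(y a)) ^ 2 := Finset.sum_nonneg fun a _ => sq_nonneg _
  linarith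

/-- total variation distance and the square root distance -/
theorem tv_sqrt (s : Finset α) (x y : α → ℝ) (hx : ∀ a ∈ s, 0 ≤ x a) (hy : ∀ a ∈ s, 0 ≤ y a)
    (hx1 : ∑ a ∈ s, x a ≤ 1) (hy1 : ∑ a ∈ s, y a ≤ 1) :
    ∑ a ∈ s, |x a - y a| ≤ 2 * √(∑ a ∈ s, (√(x a) - √(y a)) ^ 2) := by
  have h1 : ∀ a ∈ s, |x a - y a| = |√(x a) - √(y a)| * (√(x a) + √(y a)) := by
    intro a ha
    have e1 : (√(x a)) ^ 2 = x a := sq_sqrt (hx a ha)
    have e2 : (√(y a)) ^ 2 = y a := sq_sqrt (hy a ha)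
    have e3 : x a - y a = (√(x a) - √(y a)) * (√(x a) + √(y a)) := by
      nlinarith [e1, e2]
    rw [e3, abs_mul, abs_of_nonneg (by positivity : (0 : ℝ) ≤ √(x a) + √(y a))]
  rw [Finset.sum_congr rfl h1]
  have h2 := Finset.sum_mul_sq_le_sq_mul_sq s (fun a => |√(x a) - √(y a)|)
    (fun a => √(x a) + √(y a))
  have h3 : ∑ a ∈ s, (√(x a) + √(y a)) ^ 2 ≤ 4 := by
    have h4 : ∑ a ∈ s, (√(x a) + √(y a)) ^ 2 ≤ ∑ a ∈ s, (2 * x a + 2 * y a) := by
      refine Finset.sum_le_sum fun a ha => ?_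
      have e1 : (√(x a)) ^ 2 = x a := sq_sqrt (hx a ha)
      have e2 : (√(y a)) ^ 2 = y a := sq_sqrt (hy a ha)
      nlinarith [sq_nonneg (√(x a) - √(y a))]
    rw [Finset.sum_add_distrib, ← Finset.mul_sum, ← Finset.mul_sum] at h4
    linarith
  simp only [sq_abs] at h2
  have h5 : 0 ≤ ∑ a ∈ s, (√(x a) - √(y a)) ^ 2 := Finset.sum_nonneg fun a _ => sq_nonneg _
  have h6 : (∑ a ∈ s, |√(x a) - √(y a)| * (√(x a) + √(y a))) ^ 2
      ≤ (∑ a ∈ s, (√(x a) - √(y a)) ^ 2) * 4 := h2.trans (mul_le_mul_of_nonneg_left h3 h5)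
  have h7 : (2 * √(∑ a ∈ s, (√(x a) - √(y a)) ^ 2)) ^ 2
      = (∑ a ∈ s, (√(x a) - √(y a)) ^ 2) * 4 := by
    rw [mul_pow, sq_sqrt h5]; ring
  rw [← h7] at h6
  exact le_of_sq_le_sq h6 (by positivity)

/-- entropy of a nonnegative vector of total mass `m` supported on at most `N` places -/
theorem sum_negMulLog_le (s : Finset α) (x : α → ℝ) (hx : ∀ a ∈ s, 0 ≤ x a) {N : ℝ}
    (hN : (s.card : ℝ) ≤ N) (hN0 : 0 < N) :
    ∑ a ∈ s, negMulLog (x a) ≤ negMulLog (∑ a ∈ s, x a) + (∑ a ∈ s, x a) * log N := by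
  set m := ∑ a ∈ s, x a with hm
  have hm0 : 0 ≤ m := Finset.sum_nonneg hx
  rcases hm0.eq_or_lt with h0 | h0
  · have hz : ∀ a ∈ s, x a = 0 := (Finset.sum_eq_zero_iff_of_nonneg hx).1 h0.symm
    rw [Finset.sum_congr rfl (fun a ha => by rw [hz a ha]), ← h0]
    simp
  · have h := gibbs s x (fun _ => m / N) hx (fun _ _ => by positivity)
      (fun a _ h => absurd h (by positivity))
    rw [Finset.sum_sub_distrib, Finset.sum_const, ← hm, nsmul_eq_mul, Finset.sum_sub_distrib,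
      ← Finset.sum_mul, ← hm, log_div h0.ne' hN0.ne'] at h
    have h1 : (s.card : ℝ) * (m / N) ≤ m := by
      rw [← mul_div_assoc, div_le_iff₀ hN0]
      nlinarith
    have h2 : ∑ a ∈ s, negMulLog (x a) = - ∑ a ∈ s, x a * log (x a) := by
      rw [← Finset.sum_neg_distrib]
      exact Finset.sum_congr rfl fun a _ => by rw [negMulLog]; ring
    rw [h2, negMulLog]
    nlinarith

end H88.ENT
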