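import Pool.Agent.H88.ENT.B1
import Pool.Agent.H88.ENT.B2

/-!
# ENT.B3: entropy of one function
-/

namespace H88.ENT

open MeasureTheory Real

variable {Ω : Type*} [MeasurableSpace Ω] {P : Measure Ω} [IsProbabilityMeasure P]
  {α β γ : Type*} [Fintype α] [Fintype β] [Fintype γ]

omit [Fintype α] in
private theorem B3_sub (s : Finset α) (x : α → ℝ) (hx : ∀ a ∈ s, 0 ≤ x a) :
    negMulLog (∑ a ∈ s, x a) ≤ ∑ a ∈ s, negMulLog (x a) := by
  have h : negMulLog (∑ a ∈ s, x a) = ∑ a ∈ s, (- (x a) * log (∑ b ∈ s, x b)) := by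
    rw [← Finset.sum_mul, Finset.sum_neg_distrib]
    rfl
  rw [h]
  refine Finset.sum_le_sum fun a ha => ?_
  have h0 := hx a ha
  have hle : x a ≤ ∑ b ∈ s, x b := Finset.single_le_sum hx ha
  rcases h0.lt_or_eq with h1 | h1
  · have h2 := Real.log_le_log h1 hle
    unfold negMulLog
    nlinarith
  · rw [← h1]
    simp [negMulLog]

theorem H_nonneg (R : Ω → α) : 0 ≤ H P R := by
  unfold H
  exact Finset.sum_nonneg fun a _ => negMulLog_nonneg measureReal_nonneg measureReal_le_one

theorem H_le_log_card {R : Ω → α} (hR : FM R) : H P R ≤ log (Fintype.card α) := by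
  have h1 := sum_real_fibre (P := P) hR
  have hne : (Finset.univ : Finset α).Nonempty := by
    by_contra hcon
    rw [Finset.not_nonempty_iff_eq_empty] at hcon
    rw [hcon, Finset.sum_empty] at h1
    exact zero_ne_one h1
  have hc : 0 < (Fintype.card α : ℝ) := by
    rw [← Finset.card_univ]
    exact_mod_cast hne.card_pos
  have h2 := sum_negMulLog_le (Finset.univ : Finset α) (fun a => P.real (R ⁻¹' {a}))
    (fun a _ => measureReal_nonneg) (N := (Fintype.card α : ℝ)) (by rw [Finset.card_univ]) hc
  have h3 : ∑ a ∈ (Finset.univ : Finset α), (fun a => P.real (R ⁻¹' {a})) a = 1 := h1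
  rw [h3, negMulLog_one, zero_add, one_mul] at h2
  exact h2

/-- an injective relabelling does not change the entropy -/
theorem H_comp_inj (R : Ω → α) {g : α → β} (hg : Function.Injective g) :
    H P (fun w => g (R w)) = H P R := by
  unfold H
  refine (Fintype.sum_of_injective g hg _ _ ?_ ?_).symm
  · intro b hb
    have h : (fun w => g (R w)) ⁻¹' {b} = ∅ := by
      ext w
      simp only [Set.mem_preimage, Set.mem_singleton_iff, Set.mem_empty_iff_false, iff_false]
      intro hw
      exact hb ⟨R w, hw⟩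
    rw [h]
    simp
  · intro a
    have h : (fun w => g (R w)) ⁻¹' {g a} = R ⁻¹' {a} := by
      ext w
      simp only [Set.mem_preimage, Set.mem_singleton_iff]
      exact ⟨fun hw => hg hw, fun hw => by rw [hw]⟩
    rw [h]

/-- the entropy of a function of `R` is at most the entropy of `R` -/
theorem H_map_le {R : Ω → α} (hR : FM R) (g : α → β) : H P (fun w => g (R w)) ≤ H P R := by
  classical
  unfold H
  have h1 : ∀ b : β, negMulLog (P.real ((fun w => g (R w)) ⁻¹' {b}))
      ≤ ∑ a ∈ Finset.univ.filter (fun a => g a = b), negMulLog (P.real (R ⁻¹' {a})) := by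
    intro b
    rw [real_map hR g b]
    exact B3_sub _ _ fun a _ => measureReal_nonneg
  refine (Finset.sum_le_sum fun b _ => h1 b).trans (le_of_eq ?_)
  exact Finset.sum_fiberwise (Finset.univ : Finset α) g fun a => negMulLog (P.real (R ⁻¹' {a}))

/-- stationarity -/
theorem H_mp {R : Ω → α} (hR : FM R) {b : Ω → Ω} (hb : MeasurePreserving b P P) :
    H P (fun w => R (b w)) = H P R := by
  unfold H
  refine Finset.sum_congr rfl fun a _ => ?_
  have h : P.real ((fun w => R (b w)) ⁻¹' {a}) = P.real (R ⁻¹' {a}) := by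
    have h2 : (fun w => R (b w)) ⁻¹' {a} = b ⁻¹' (R ⁻¹' {a}) := rfl
    rw [h2]
    unfold Measure.real
    rw [hb.measure_preimage (hR a).nullMeasurableSet]
  rw [h]

theorem H_congr_ae {R R' : Ω → α} (h : R =ᵐ[P] R') : H P R = H P R' := by
  unfold H
  refine Finset.sum_congr rfl fun a _ => ?_
  have h1 : P.real (R ⁻¹' {a}) = P.real (R' ⁻¹' {a}) := by
    unfold Measure.real
    have h2 : R ⁻¹' {a} =ᵐ[P] R' ⁻¹' {a} := by
      filter_upwards [h] with w hw
      change (R w = a) = (R' w = a)
      rw [hw]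
    rw [measure_congr h2]
  rw [h1]

/-- the entropy of a constant is zero -/
theorem H_const (a : α) : H P (fun _ : Ω => a) = 0 := by
  classical
  unfold H
  refine Finset.sum_eq_zero fun b _ => ?_
  by_cases hab : a = b
  · have h : (fun _ : Ω => a) ⁻¹' {b} = Set.univ := by
      ext w
      simp [hab]
    rw [h, probReal_univ, negMulLog_one]
  · have h : (fun _ : Ω => a) ⁻¹' {b} = ∅ := by
      ext w
      simp [hab]
    rw [h]
    simp

/-- entropy of a two valued function that is `true` outside a set of measure at most `η` -/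
theorem H_bool_le {B : Ω → Bool} (hB : FM B) {η : ℝ} (hη : P.real (B ⁻¹' {false}) ≤ η)
    (hη2 : η ≤ 1 / 2) : H P B ≤ binEntropy η := by
  have h1 := sum_real_fibre (P := P) hB
  rw [Fintype.sum_bool] at h1
  have h2 : H P B = binEntropy (P.real (B ⁻¹' {false})) := by
    unfold H
    rw [Fintype.sum_bool, binEntropy_eq_negMulLog_add_negMulLog_one_sub]
    have h3 : P.real (B ⁻¹' {true}) = 1 - P.real (B ⁻¹' {false}) := by linarith
    rw [h3]
    ring
  rw [h2]
  have h0 : 0 ≤ P.real (B ⁻¹' {false}) := measureReal_nonneg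
  exact binEntropy_strictMonoOn.monotoneOn ⟨h0, by norm_num; linarith⟩
    ⟨h0.trans hη, by norm_num; linarith⟩ hη

end H88.ENT
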