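import Pool.Agent.H88.ENT.B3

/-!
# ENT.B4: conditional entropy

`Hc_submod` (strong subadditivity): with `p` the joint law of `(R, S, T)`, apply `gibbs` to
`x (r, s, t) = p (r, s, t)` and `y (r, s, t) = p (r, t) p (s, t) / p (t)` on
`Finset.univ : Finset (α × β × γ)`; the sum of `y` is at most one.
`Hc_anti` and the others follow from `Hc_submod`, `H_comp_inj` and the chain rule:
if `T = g ∘ S` then `w ↦ (R w, S w)` and `w ↦ (R w, S w, T w)` have the same entropy.
-/

namespace H88.ENT

open MeasureTheory Real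

variable {Ω : Type*} [MeasurableSpace Ω] {P : Measure Ω} [IsProbabilityMeasure P]
  {α β γ δ : Type*} [Fintype α] [Fintype β] [Fintype γ] [Fintype δ]

/-! ### strong subadditivity for finite sums -/

private theorem b4_core (x r s T : ℝ) (hx : 0 ≤ x) (hr : x ≤ r) (hs : x ≤ s) (hT : x ≤ T)
    (hTp : 0 < T) :
    x - r * s / T ≤ x * Real.log x - x * Real.log r - x * Real.log s + x * Real.log T := by
  rcases hx.eq_or_lt with h0 | h0
  · subst h0
    have h1 : 0 ≤ r * s / T := div_nonneg (mul_nonneg hr hs) hTp.le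
    simp only [zero_mul]
    linarith
  · have hrp : 0 < r := lt_of_lt_of_le h0 hr
    have hsp : 0 < s := lt_of_lt_of_le h0 hs
    have hu : 0 < r * s / (x * T) := by positivity
    have h1 := Real.log_le_sub_one_of_pos hu
    have h2 : Real.log (r * s / (x * T)) =
        Real.log r + Real.log s - (Real.log x + Real.log T) := by
      rw [Real.log_div (by positivity) (by positivity), Real.log_mul hrp.ne' hsp.ne',
        Real.log_mul h0.ne' hTp.ne']
    rw [h2] at h1
    have h3 : x * (Real.log r + Real.log s - (Real.log x + Real.log T)) ≤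
        x * (r * s / (x * T) - 1) := mul_le_mul_of_nonneg_left h1 h0.le
    have h4 : x * (r * s / (x * T) - 1) = r * s / T - x := by
      field_simp
    rw [h4] at h3
    nlinarith [h3]

private theorem b4_two (x : α → β → ℝ) (hx : ∀ a b, 0 ≤ x a b) :
    (∑ a, ∑ b, Real.negMulLog (x a b)) + Real.negMulLog (∑ a, ∑ b, x a b) ≤
      (∑ a, Real.negMulLog (∑ b, x a b)) + ∑ b, Real.negMulLog (∑ a, x a b) := by
  set T := ∑ a, ∑ b, x a b with hTdef
  have hT0 : 0 ≤ T := Finset.sum_nonneg fun a _ => Finset.sum_nonneg fun b _ => hx a b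
  have hle_r : ∀ a b, x a b ≤ ∑ b', x a b' := fun a b =>
    Finset.single_le_sum (f := fun b' => x a b') (fun b' _ => hx a b') (Finset.mem_univ b)
  have hle_s : ∀ a b, x a b ≤ ∑ a', x a' b := fun a b =>
    Finset.single_le_sum (f := fun a' => x a' b) (fun a' _ => hx a' b) (Finset.mem_univ a)
  have hrT : ∀ a, (∑ b, x a b) ≤ T := fun a =>
    Finset.single_le_sum (f := fun a' => ∑ b, x a' b)
      (fun a' _ => Finset.sum_nonneg fun b _ => hx a' b) (Finset.mem_univ a)
  rcases hT0.eq_or_lt with h0 | hTp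
  · have hz : ∀ a b, x a b = 0 := fun a b =>
      le_antisymm ((hle_r a b).trans ((hrT a).trans h0.symm.le)) (hx a b)
    simp [hz, ← h0]
  · have key : ∑ a, ∑ b, (x a b - (∑ b', x a b') * (∑ a', x a' b) / T) ≤
        ∑ a, ∑ b, (x a b * Real.log (x a b) - x a b * Real.log (∑ b', x a b') -
          x a b * Real.log (∑ a', x a' b) + x a b * Real.log T) :=
      Finset.sum_le_sum fun a _ => Finset.sum_le_sum fun b _ =>
        b4_core _ _ _ _ (hx a b) (hle_r a b) (hle_s a b) ((hle_r a b).trans (hrT a)) hTp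
    have hL : ∑ a, ∑ b, (x a b - (∑ b', x a b') * (∑ a', x a' b) / T) = 0 := by
      simp only [Finset.sum_sub_distrib]
      have h1 : ∑ a, ∑ b, (∑ b', x a b') * (∑ a', x a' b) / T = T * T / T := by
        have h2 : ∀ a, ∑ b, (∑ b', x a b') * (∑ a', x a' b) / T =
            (∑ b', x a b') * (∑ b, ∑ a', x a' b) / T := by
          intro a
          rw [← Finset.sum_div, ← Finset.mul_sum]
        simp only [h2]
        rw [← Finset.sum_div, ← Finset.sum_mul]
        congr 2
        rw [Finset.sum_comm]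
      rw [h1, mul_div_assoc, div_self hTp.ne', mul_one, ← hTdef, sub_self]
    have hR : ∑ a, ∑ b, (x a b * Real.log (x a b) - x a b * Real.log (∑ b', x a b') -
          x a b * Real.log (∑ a', x a' b) + x a b * Real.log T) =
        -(∑ a, ∑ b, Real.negMulLog (x a b)) + (∑ a, Real.negMulLog (∑ b, x a b)) +
          (∑ b, Real.negMulLog (∑ a, x a b)) - Real.negMulLog T := by
      simp only [Finset.sum_add_distrib, Finset.sum_sub_distrib]
      have e1 : ∑ a, ∑ b, x a b * Real.log (x a b) = -(∑ a, ∑ b, Real.negMulLog (x a b)) := by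
        simp only [Real.negMulLog, neg_mul, Finset.sum_neg_distrib, neg_neg]
      have e2 : ∑ a, ∑ b, x a b * Real.log (∑ b', x a b') =
          -(∑ a, Real.negMulLog (∑ b, x a b)) := by
        simp only [Real.negMulLog, neg_mul, Finset.sum_neg_distrib, neg_neg, Finset.sum_mul]
      have e3 : ∑ a, ∑ b, x a b * Real.log (∑ a', x a' b) =
          -(∑ b, Real.negMulLog (∑ a, x a b)) := by
        rw [Finset.sum_comm]
        simp only [Real.negMulLog, neg_mul, Finset.sum_neg_distrib, neg_neg, Finset.sum_mul]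
      have e4 : ∑ a, ∑ b, x a b * Real.log T = -(Real.negMulLog T) := by
        simp only [← Finset.sum_mul]
        rw [← hTdef, Real.negMulLog]
        ring
      rw [e1, e2, e3, e4]
      ring
    rw [hL, hR] at key
    linarith

private theorem b4_sub (p : α → β → γ → ℝ) (hp : ∀ a b c, 0 ≤ p a b c) :
    (∑ a, ∑ b, ∑ c, Real.negMulLog (p a b c)) + ∑ c, Real.negMulLog (∑ a, ∑ b, p a b c) ≤
      (∑ a, ∑ c, Real.negMulLog (∑ b, p a b c)) + ∑ b, ∑ c, Real.negMulLog (∑ a, p a b c) := by
  have h := Finset.sum_le_sum fun c (_ : c ∈ (Finset.univ : Finset γ)) =>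
    b4_two (fun a b => p a b c) (fun a b => hp a b c)
  simp only [Finset.sum_add_distrib] at h
  have e1 : ∑ c, ∑ a, ∑ b, Real.negMulLog (p a b c) =
      ∑ a, ∑ b, ∑ c, Real.negMulLog (p a b c) := by
    rw [Finset.sum_comm]
    refine Finset.sum_congr rfl fun a _ => ?_
    rw [Finset.sum_comm]
  have e2 : ∑ c, ∑ a, Real.negMulLog (∑ b, p a b c) =
      ∑ a, ∑ c, Real.negMulLog (∑ b, p a b c) := Finset.sum_comm
  have e3 : ∑ c, ∑ b, Real.negMulLog (∑ a, p a b c) =
      ∑ b, ∑ c, Real.negMulLog (∑ a, p a b c) := Finset.sum_comm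
  rw [e1, e2, e3] at h
  exact h

private theorem b4_nonempty (f : Ω → α) (P : Measure Ω) [IsProbabilityMeasure P] :
    Nonempty α := by
  obtain ⟨ω⟩ : Nonempty Ω := nonempty_of_isProbabilityMeasure P
  exact ⟨f ω⟩

/-- chain rule -/
theorem Hc_chain (R : Ω → α) (S : Ω → β) (T : Ω → γ) :
    Hc P (fun w => (R w, S w)) T = Hc P S T + Hc P R (fun w => (S w, T w)) := by
  have h : H P (fun w => ((R w, S w), T w)) = H P (fun w => (R w, (S w, T w))) := by
    have h1 := H_comp_inj (P := P) (fun w => (R w, (S w, T w)))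
      (g := fun x : α × β × γ => ((x.1, x.2.1), x.2.2)) (by
        rintro ⟨a, b, c⟩ ⟨a', b', c'⟩ h
        simp only [Prod.mk.injEq] at h ⊢
        tauto)
    exact h1
  unfold Hc
  rw [h]
  ring

theorem Hc_nonneg {R : Ω → α} {S : Ω → β} (hR : FM R) (hS : FM S) : 0 ≤ Hc P R S := by
  have h := H_map_le (P := P) (hR.prod hS) (Prod.snd : α × β → β)
  unfold Hc
  simp only at h
  linarith

/-- strong subadditivity -/
theorem Hc_submod {R : Ω → α} {S : Ω → β} {T : Ω → γ} (hR : FM R) (hS : FM S) (hT : FM T) :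
    Hc P R (fun w => (S w, T w)) ≤ Hc P R T := by
  have h := b4_sub (fun a b c => P.real ((fun w => (R w, (S w, T w))) ⁻¹' {(a, (b, c))}))
    (fun _ _ _ => measureReal_nonneg)
  have e1 : ∀ b c, ∑ a, P.real ((fun w => (R w, (S w, T w))) ⁻¹' {(a, (b, c))})
      = P.real ((fun w => (S w, T w)) ⁻¹' {(b, c)}) :=
    fun b c => sum_real_pair (P := P) hR (hS.prod hT) (b, c)
  have e2 : ∀ a c, ∑ b, P.real ((fun w => (R w, (S w, T w))) ⁻¹' {(a, (b, c))})
      = P.real ((fun w => (R w, T w)) ⁻¹' {(a, c)}) := by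
    intro a c
    rw [← sum_real_pair (P := P) hS (hR.prod hT) (a, c)]
    refine Finset.sum_congr rfl fun b _ => ?_
    congr 1
    ext w
    simp only [Set.mem_preimage, Set.mem_singleton_iff, Prod.mk.injEq]
    tauto
  have e3 : ∀ c, ∑ a, P.real ((fun w => (R w, T w)) ⁻¹' {(a, c)}) = P.real (T ⁻¹' {c}) :=
    fun c => sum_real_pair (P := P) hR hT c
  simp only [e1, e2, e3] at h
  unfold Hc H
  simp only [Fintype.sum_prod_type]
  linarith

/-- conditioning on less information gives a larger entropy -/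
theorem Hc_anti {R : Ω → α} {S : Ω → β} (hR : FM R) (hS : FM S) (g : β → γ) :
    Hc P R S ≤ Hc P R (fun w => g (S w)) := by
  have h := Hc_submod (P := P) hR hS (hS.map g)
  have e1 : H P (fun w => (R w, (S w, g (S w)))) = H P (fun w => (R w, S w)) := by
    have h1 := H_comp_inj (P := P) (fun w => (R w, S w))
      (g := fun x : α × β => (x.1, (x.2, g x.2))) (by
        rintro ⟨a, b⟩ ⟨a', b'⟩ h
        simp only [Prod.mk.injEq] at h ⊢
        tauto)
    exact h1
  have e2 : H P (fun w => (S w, g (S w))) = H P S := by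
    have h1 := H_comp_inj (P := P) S
      (g := fun x : β => (x, g x)) (by
        intro a a' h
        simp only [Prod.mk.injEq] at h
        exact h.1)
    exact h1
  unfold Hc at h ⊢
  rw [e1, e2] at h
  exact h

/-- a function of `(R, S)` has at most the conditional entropy of `R` given `S` -/
theorem Hc_map_le {R : Ω → α} {S : Ω → β} (hR : FM R) (hS : FM S) (g : α × β → γ) :
    Hc P (fun w => g (R w, S w)) S ≤ Hc P R S := by
  have h := H_map_le (P := P) (hR.prod hS) (fun x : α × β => (g x, x.2))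
  unfold Hc
  simp only at h
  linarith

theorem Hc_le_H {R : Ω → α} {S : Ω → β} (hR : FM R) (hS : FM S) : Hc P R S ≤ H P R := by
  have h := Hc_anti (P := P) hR hS (fun _ => ())
  have e1 : H P (fun w => (R w, ())) = H P R := by
    have h1 := H_comp_inj (P := P) R
      (g := fun x : α => (x, ())) (by
        intro a a' h
        simp only [Prod.mk.injEq] at h
        exact h.1)
    exact h1
  refine h.trans ?_
  unfold Hc
  rw [e1, H_const]
  linarith

theorem Hc_le_log_card {R : Ω → α} {S : Ω → β} (hR : FM R) (hS : FM S) :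
    Hc P R S ≤ log (Fintype.card α) :=
  (Hc_le_H hR hS).trans (H_le_log_card hR)

/-- an injective relabelling of the condition -/
theorem Hc_comp_inj_right (R : Ω → α) (S : Ω → β) {g : β → γ} (hg : Function.Injective g) :
    Hc P R (fun w => g (S w)) = Hc P R S := by
  have e1 : H P (fun w => (R w, g (S w))) = H P (fun w => (R w, S w)) := by
    have h1 := H_comp_inj (P := P) (fun w => (R w, S w))
      (g := fun x : α × β => (x.1, g x.2)) (by
        rintro ⟨a, b⟩ ⟨a', b'⟩ h
        simp only [Prod.mk.injEq] at h ⊢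
        exact ⟨h.1, hg h.2⟩)
    exact h1
  unfold Hc
  rw [e1, H_comp_inj S hg]

/-- an injective relabelling of the first function -/
theorem Hc_comp_inj_left (R : Ω → α) (S : Ω → β) {g : α → γ} (hg : Function.Injective g) :
    Hc P (fun w => g (R w)) S = Hc P R S := by
  have e1 : H P (fun w => (g (R w), S w)) = H P (fun w => (R w, S w)) := by
    have h1 := H_comp_inj (P := P) (fun w => (R w, S w))
      (g := fun x : α × β => (g x.1, x.2)) (by
        rintro ⟨a, b⟩ ⟨a', b'⟩ h
        simp only [Prod.mk.injEq] at h ⊢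
        exact ⟨hg h.1, h.2⟩)
    exact h1
  unfold Hc
  rw [e1]

/-- stationarity -/
theorem Hc_mp {R : Ω → α} {S : Ω → β} (hR : FM R) (hS : FM S) {b : Ω → Ω}
    (hb : MeasurePreserving b P P) : Hc P (fun w => R (b w)) (fun w => S (b w)) = Hc P R S := by
  unfold Hc
  rw [H_mp hS hb]
  have h := H_mp (P := P) (hR.prod hS) hb
  rw [h]

theorem Hc_congr_ae {R R' : Ω → α} {S S' : Ω → β} (h : R =ᵐ[P] R') (h' : S =ᵐ[P] S') :
    Hc P R S = Hc P R' S' := by
  unfold Hc
  rw [H_congr_ae h']
  congr 1
  refine H_congr_ae ?_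
  filter_upwards [h, h'] with w hw hw'
  rw [hw, hw']

/-- conditional entropy as an average -/
theorem Hc_eq_sum {R : Ω → α} {S : Ω → β} (hR : FM R) (hS : FM S) :
    Hc P R S = ∑ b, (∑ a, negMulLog (P.real ((fun w => (R w, S w)) ⁻¹' {(a, b)}))
      - negMulLog (P.real (S ⁻¹' {b}))) := by
  unfold Hc H
  rw [Finset.sum_sub_distrib, Fintype.sum_prod_type, Finset.sum_comm]

/-- `R` uniform and independent of `S` -/
theorem Hc_uniform {R : Ω → α} {S : Ω → β} [Nonempty α] (hR : FM R) (hS : FM S)
    (h : ∀ a b, P.real ((fun w => (R w, S w)) ⁻¹' {(a, b)})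
      = P.real (S ⁻¹' {b}) / Fintype.card α) :
    Hc P R S = log (Fintype.card α) := by
  have hc : (0 : ℝ) < Fintype.card α := by exact_mod_cast Fintype.card_pos
  rw [Hc_eq_sum hR hS]
  have h1 : ∀ b, (∑ a, negMulLog (P.real ((fun w => (R w, S w)) ⁻¹' {(a, b)}))
      - negMulLog (P.real (S ⁻¹' {b}))) = P.real (S ⁻¹' {b}) * log (Fintype.card α) := by
    intro b
    simp_rw [h]
    rw [Finset.sum_const, Finset.card_univ, nsmul_eq_mul]
    rcases (measureReal_nonneg (μ := P) (s := S ⁻¹' {b})).eq_or_lt with h0 | h0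
    · rw [← h0]; simp
    · rw [negMulLog, negMulLog, log_div h0.ne' hc.ne']
      field_simp
      ring
  simp_rw [h1]
  rw [← Finset.sum_mul, sum_real_fibre hS, one_mul]

end H88.ENT
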