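import Pool.Agent.H88.ENT.B4

/-!
# ENT.B5: counting lemma for the conditional entropy of finite valued functions

Proof: `B := decide (w ∈ G)`.  `Hc R S ≤ Hc (R, B) S = Hc B S + Hc R (B, S)`,
`Hc B S ≤ H B ≤ binEntropy η` (`H_bool_le`), and `Hc_eq_sum` for `R` given `(B, S)` with
`sum_negMulLog_le` (with `N` on the atoms in `G`, with `card α` on the others).
-/

namespace H88.ENT

open MeasureTheory Real

variable {Ω : Type*} [MeasurableSpace Ω] {P : Measure Ω} [IsProbabilityMeasure P]
  {α β : Type*} [Fintype α] [Fintype β]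

/-- counting lemma (C) of h23 4.3 -/
theorem Hc_counting {R : Ω → α} {S : Ω → β} (hR : FM R) (hS : FM S) {G : Set Ω}
    (hG : MeasurableSet G) {η : ℝ} (hη : P.real Gᶜ ≤ η) (hη2 : η ≤ 1 / 2) {N : ℕ}
    (hN : 0 < N) (hcount : ∀ b, (R '' (G ∩ S ⁻¹' {b})).ncard ≤ N) :
    Hc P R S ≤ binEntropy η + log N + η * log (Fintype.card α) := by
  classical
  let B : Ω → Bool := fun w => decide (w ∈ G)
  have hBt : B ⁻¹' {true} = G := by ext w; simp [B]
  have hBf : B ⁻¹' {false} = Gᶜ := by ext w; simp [B]
  have hB : FM B := by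
    intro b
    cases b
    · rw [hBf]; exact hG.compl
    · rw [hBt]; exact hG
  obtain ⟨w0⟩ : Nonempty Ω := nonempty_of_isProbabilityMeasure P
  have : Nonempty α := ⟨R w0⟩
  have hcard : (0 : ℝ) < Fintype.card α := by exact_mod_cast Fintype.card_pos
  have hcard1 : 0 ≤ log (Fintype.card α) := Real.log_natCast_nonneg _
  have hN1 : 0 ≤ log N := Real.log_natCast_nonneg _
  have hN0 : (0 : ℝ) < N := by exact_mod_cast hN
  have h1 : Hc P R S ≤ Hc P (fun w => (R w, B w)) S :=
    Hc_map_le (hR.prod hB) hS (fun p => p.1.1)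
  have h2 := Hc_chain (P := P) R B S
  have h3 : Hc P B S ≤ binEntropy η :=
    (Hc_le_H hB hS).trans (H_bool_le hB (by rw [hBf]; exact hη) hη2)
  have hBS : FM (fun w => (B w, S w)) := hB.prod hS
  have h4 : Hc P R (fun w => (B w, S w)) ≤ log N + η * log (Fintype.card α) := by
    rw [Hc_eq_sum hR hBS]
    have kf : ∀ b : β, (∑ a, negMulLog
        (P.real ((fun w => (R w, (fun w => (B w, S w)) w)) ⁻¹' {(a, (false, b))}))
        - negMulLog (P.real ((fun w => (B w, S w)) ⁻¹' {(false, b)}))) ≤
        P.real ((fun w => (B w, S w)) ⁻¹' {(false, b)}) * log (Fintype.card α) := by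
      intro b
      have hsum := sum_real_pair (P := P) hR hBS (false, b)
      have h5 := sum_negMulLog_le Finset.univ
        (fun a => P.real ((fun w => (R w, (fun w => (B w, S w)) w)) ⁻¹' {(a, (false, b))}))
        (fun a _ => measureReal_nonneg) (N := (Fintype.card α : ℝ)) (by rw [Finset.card_univ])
        hcard
      rw [hsum] at h5
      linarith
    have kt : ∀ b : β, (∑ a, negMulLog
        (P.real ((fun w => (R w, (fun w => (B w, S w)) w)) ⁻¹' {(a, (true, b))}))
        - negMulLog (P.real ((fun w => (B w, S w)) ⁻¹' {(true, b)}))) ≤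
        P.real ((fun w => (B w, S w)) ⁻¹' {(true, b)}) * log N := by
      intro b
      have hsum := sum_real_pair (P := P) hR hBS (true, b)
      set s : Finset α := (Set.toFinite (R '' (G ∩ S ⁻¹' {b}))).toFinset with hs
      have hz : ∀ a, a ∉ s →
          P.real ((fun w => (R w, (fun w => (B w, S w)) w)) ⁻¹' {(a, (true, b))}) = 0 := by
        intro a ha
        have he : (fun w => (R w, (fun w => (B w, S w)) w)) ⁻¹' {(a, (true, b))} = ∅ := by
          ext w
          simp only [Set.mem_preimage, Set.mem_singleton_iff, Prod.mk.injEq,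
            Set.mem_empty_iff_false, iff_false]
          rintro ⟨e1, e2, e3⟩
          apply ha
          rw [hs, Set.Finite.mem_toFinset]
          refine ⟨w, ⟨?_, e3⟩, e1⟩
          simpa [B] using e2
        rw [he]
        exact measureReal_empty
      have h5 := sum_negMulLog_le s
        (fun a => P.real ((fun w => (R w, (fun w => (B w, S w)) w)) ⁻¹' {(a, (true, b))}))
        (fun a _ => measureReal_nonneg) (N := (N : ℝ)) (by
          have h6 := hcount b
          rw [Set.ncard_eq_toFinset_card _ (Set.toFinite _)] at h6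
          exact_mod_cast h6) hN0
      have e1 : ∑ a ∈ s,
          P.real ((fun w => (R w, (fun w => (B w, S w)) w)) ⁻¹' {(a, (true, b))}) =
          ∑ a, P.real ((fun w => (R w, (fun w => (B w, S w)) w)) ⁻¹' {(a, (true, b))}) :=
        Finset.sum_subset (Finset.subset_univ s) fun a _ ha => hz a ha
      have e2 : ∑ a ∈ s, negMulLog
          (P.real ((fun w => (R w, (fun w => (B w, S w)) w)) ⁻¹' {(a, (true, b))})) =
          ∑ a, negMulLog
          (P.real ((fun w => (R w, (fun w => (B w, S w)) w)) ⁻¹' {(a, (true, b))})) :=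
        Finset.sum_subset (Finset.subset_univ s) fun a _ ha => by rw [hz a ha, negMulLog_zero]
      rw [e1, e2, hsum] at h5
      linarith
    have hSB : ∀ c : Bool, ∑ b : β, P.real ((fun w => (B w, S w)) ⁻¹' {(c, b)}) =
        P.real (B ⁻¹' {c}) := by
      intro c
      rw [← sum_real_pair (P := P) hS hB c]
      refine Finset.sum_congr rfl fun b _ => ?_
      congr 1
      ext w
      simp only [Set.mem_preimage, Set.mem_singleton_iff, Prod.mk.injEq]
      exact and_comm
    rw [Fintype.sum_prod_type, Fintype.sum_bool]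
    have st := Finset.sum_le_sum fun b (_ : b ∈ (Finset.univ : Finset β)) => kt b
    have sf := Finset.sum_le_sum fun b (_ : b ∈ (Finset.univ : Finset β)) => kf b
    rw [← Finset.sum_mul, hSB true] at st
    rw [← Finset.sum_mul, hSB false, hBf] at sf
    have t1 : P.real (B ⁻¹' {true}) * log N ≤ log N := by
      have : P.real (B ⁻¹' {true}) ≤ 1 := measureReal_le_one
      nlinarith
    have t2 : P.real Gᶜ * log (Fintype.card α) ≤ η * log (Fintype.card α) :=
      mul_le_mul_of_nonneg_right hη hcard1
    linarith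
  linarith

end H88.ENT
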