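import Pool.Agent.H88.ENT.B4

/-!
# ENT.B6: total variation bound

`tv_le`: `gibbs_sqrt` and `tv_sqrt` on `Finset.univ : Finset (α × β)` for
`x (a, b) = P (R = a, S = b)`, `y (a, b) = P (S = b) / card α`; the sums of `x` and `y` are one
and `∑ (x log x - x log y) = log (card α) - Hc P R S`.
-/

namespace H88.ENT

open MeasureTheory Real

variable {Ω : Type*} [MeasurableSpace Ω] {P : Measure Ω} [IsProbabilityMeasure P]
  {α β : Type*} [Fintype α] [Fintype β]

private theorem b6_sum (S : Ω → β) (hS : FM S) : ∑ b, P.real (S ⁻¹' {b}) = 1 :=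
  sum_real_fibre hS

omit [Fintype β] in
private theorem b6_marg {R : Ω → α} {S : Ω → β} (hR : FM R) (hS : FM S) (b : β) :
    ∑ a, P.real ((fun w => (R w, S w)) ⁻¹' {(a, b)}) = P.real (S ⁻¹' {b}) :=
  sum_real_pair hR hS b

private theorem b6_zero {R : Ω → α} {S : Ω → β} (hR : FM R) (hS : FM S) (a : α) (b : β)
    (h : P.real (S ⁻¹' {b}) = 0) : P.real ((fun w => (R w, S w)) ⁻¹' {(a, b)}) = 0 := by
  have h1 := b6_marg (P := P) hR hS b
  rw [h] at h1
  exact (Finset.sum_eq_zero_iff_of_nonneg fun a _ => measureReal_nonneg).1 h1 a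
    (Finset.mem_univ a)

private theorem b6_ent [Nonempty α] {R : Ω → α} {S : Ω → β} (hR : FM R) (hS : FM S) :
    ∑ p ∈ (Finset.univ : Finset (α × β)),
      (P.real ((fun w => (R w, S w)) ⁻¹' {p}) * log (P.real ((fun w => (R w, S w)) ⁻¹' {p}))
        - P.real ((fun w => (R w, S w)) ⁻¹' {p})
          * log (P.real (S ⁻¹' {p.2}) / Fintype.card α))
      = log (Fintype.card α) - Hc P R S := by
  have hc : (Fintype.card α : ℝ) ≠ 0 := Nat.cast_ne_zero.2 Fintype.card_ne_zero
  have h1 : ∑ p ∈ (Finset.univ : Finset (α × β)),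
      P.real ((fun w => (R w, S w)) ⁻¹' {p}) * log (P.real ((fun w => (R w, S w)) ⁻¹' {p}))
      = - H P (fun w => (R w, S w)) := by
    unfold H
    rw [← Finset.sum_neg_distrib]
    refine Finset.sum_congr rfl fun p _ => ?_
    rw [negMulLog]
    ring
  have h2 : ∑ p ∈ (Finset.univ : Finset (α × β)), P.real ((fun w => (R w, S w)) ⁻¹' {p})
          * log (P.real (S ⁻¹' {p.2}) / Fintype.card α) = - H P S - log (Fintype.card α) := by
    rw [Fintype.sum_prod_type, Finset.sum_comm]
    have h3 : ∀ b : β, ∑ a, P.real ((fun w => (R w, S w)) ⁻¹' {(a, b)})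
          * log (P.real (S ⁻¹' {b}) / Fintype.card α)
          = P.real (S ⁻¹' {b}) * log (P.real (S ⁻¹' {b}))
            - P.real (S ⁻¹' {b}) * log (Fintype.card α) := by
      intro b
      rw [← Finset.sum_mul, b6_marg hR hS b]
      by_cases h0 : P.real (S ⁻¹' {b}) = 0
      · rw [h0]
        simp
      · rw [log_div h0 hc]
        ring
    rw [Finset.sum_congr rfl fun b _ => h3 b, Finset.sum_sub_distrib, ← Finset.sum_mul,
      b6_sum S hS, one_mul]
    congr 1
    unfold H
    rw [← Finset.sum_neg_distrib]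
    refine Finset.sum_congr rfl fun b _ => ?_
    rw [negMulLog]
    ring
  rw [Finset.sum_sub_distrib, h1, h2]
  unfold Hc
  ring

/-- if the entropy of `R` given `S` is almost maximal then `R` is almost uniform given `S` -/
theorem tv_le [Nonempty α] {R : Ω → α} {S : Ω → β} (hR : FM R) (hS : FM S) :
    ∑ a, ∑ b, |P.real ((fun w => (R w, S w)) ⁻¹' {(a, b)})
        - P.real (S ⁻¹' {b}) / Fintype.card α|
      ≤ 2 * √(log (Fintype.card α) - Hc P R S) := by
  classical
  have hc : (Fintype.card α : ℝ) ≠ 0 := Nat.cast_ne_zero.2 Fintype.card_ne_zero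
  have hc0 : (0 : ℝ) < Fintype.card α := Nat.cast_pos.2 Fintype.card_pos
  set x : α × β → ℝ := fun p => P.real ((fun w => (R w, S w)) ⁻¹' {p}) with hx
  set y : α × β → ℝ := fun p => P.real (S ⁻¹' {p.2}) / Fintype.card α with hy
  have hx0 : ∀ p ∈ (Finset.univ : Finset (α × β)), 0 ≤ x p := fun p _ => measureReal_nonneg
  have hy0 : ∀ p ∈ (Finset.univ : Finset (α × β)), 0 ≤ y p := fun p _ =>
    div_nonneg measureReal_nonneg hc0.le
  have hxy : ∀ p ∈ (Finset.univ : Finset (α × β)), y p = 0 → x p = 0 := by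
    rintro ⟨a, b⟩ - h
    have h' : P.real (S ⁻¹' {b}) / (Fintype.card α : ℝ) = 0 := h
    rw [div_eq_zero_iff, or_iff_left hc] at h'
    exact b6_zero hR hS a b h'
  have hx1 : ∑ p, x p = 1 := by
    rw [Fintype.sum_prod_type, Finset.sum_comm]
    rw [Finset.sum_congr rfl fun b _ => b6_marg (P := P) hR hS b]
    exact b6_sum S hS
  have hy1 : ∑ p, y p = 1 := by
    rw [Fintype.sum_prod_type, Finset.sum_comm]
    have : ∀ b : β, ∑ _a : α, P.real (S ⁻¹' {b}) / (Fintype.card α : ℝ) = P.real (S ⁻¹' {b}) := by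
      intro b
      rw [Finset.sum_const, Finset.card_univ, nsmul_eq_mul]
      field_simp
    rw [Finset.sum_congr rfl fun b _ => this b]
    exact b6_sum S hS
  have hg := gibbs_sqrt Finset.univ x y hx0 hy0 hxy
  rw [b6_ent (P := P) hR hS, Finset.sum_sub_distrib, hx1, hy1, sub_self, zero_add] at hg
  have ht := tv_sqrt Finset.univ x y hx0 hy0 hx1.le hy1.le
  have hl : ∑ a, ∑ b, |P.real ((fun w => (R w, S w)) ⁻¹' {(a, b)})
        - P.real (S ⁻¹' {b}) / Fintype.card α| = ∑ p, |x p - y p| := by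
    rw [Fintype.sum_prod_type]
  rw [hl]
  exact ht.trans (mul_le_mul_of_nonneg_left (sqrt_le_sqrt hg) zero_le_two)

/-- equality case: `R` is uniform and independent of `S` -/
theorem uniform_of_le [Nonempty α] {R : Ω → α} {S : Ω → β} (hR : FM R) (hS : FM S)
    (h : log (Fintype.card α) ≤ Hc P R S) (a : α) (b : β) :
    P.real ((fun w => (R w, S w)) ⁻¹' {(a, b)}) = P.real (S ⁻¹' {b}) / Fintype.card α := by
  have h1 := tv_le (P := P) hR hS
  rw [sqrt_eq_zero_of_nonpos (sub_nonpos.2 h), mul_zero] at h1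
  have h2 : |P.real ((fun w => (R w, S w)) ⁻¹' {(a, b)})
        - P.real (S ⁻¹' {b}) / Fintype.card α| ≤ ∑ a, ∑ b,
      |P.real ((fun w => (R w, S w)) ⁻¹' {(a, b)})
        - P.real (S ⁻¹' {b}) / Fintype.card α| := by
    refine le_trans ?_ (Finset.single_le_sum (f := fun a => ∑ b,
      |P.real ((fun w => (R w, S w)) ⁻¹' {(a, b)})
        - P.real (S ⁻¹' {b}) / Fintype.card α|)
      (fun a _ => Finset.sum_nonneg fun b _ => abs_nonneg _) (Finset.mem_univ a))
    exact Finset.single_le_sum (f := fun b =>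
      |P.real ((fun w => (R w, S w)) ⁻¹' {(a, b)})
        - P.real (S ⁻¹' {b}) / Fintype.card α|) (fun b _ => abs_nonneg _) (Finset.mem_univ b)
  exact sub_eq_zero.1 (abs_nonpos_iff.1 (h2.trans h1))

/-- if `R` is not independent of `S` or not uniform then its conditional entropy is smaller -/
theorem Hc_lt [Nonempty α] {R : Ω → α} {S : Ω → β} (hR : FM R) (hS : FM S) {a : α} {b : β}
    (h : P.real ((fun w => (R w, S w)) ⁻¹' {(a, b)}) ≠ P.real (S ⁻¹' {b}) / Fintype.card α) :
    Hc P R S < log (Fintype.card α) := by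
  by_contra h1
  exact h (uniform_of_le hR hS (not_lt.1 h1) a b)

end H88.ENT
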