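import Pool.Agent.H88.ENT.B5
import Pool.Agent.H88.ENT.B7

/-!
# ENT.B8: comparison, stationarity and counting for `hh`
-/

namespace H88.ENT

open MeasureTheory Real Filter Topology

variable {Ω : Type*} [MeasurableSpace Ω] {P : Measure Ω} [IsProbabilityMeasure P] {X : Filt Ω}
  {α β γ δ : Type*} [Fintype α] [Fintype β] [Fintype γ] [Fintype δ]

/-- if `W` is a function of `S` and a partition of `X` then `hh R S` is at most the entropy of
`R` given `W` -/
theorem hh_le_of_det {R : Ω → α} {S : Ω → β} {W : Ω → γ} (hR : FM R) (hS : FM S)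
    (h : Det X S W) : hh P X R S ≤ Hc P R W := by
  obtain ⟨l, g, hg⟩ := h
  have e : W = fun w => g (S w, X.xi l w) := funext hg
  rw [e]
  exact (hh_le hR hS l).trans (Hc_anti hR (hS.prod (X.meas l)) g)

private theorem b8_det_pair {S : Ω → β} {T : Ω → γ} (h : Det X S T) (l : ℕ) :
    Det X S (fun w => (T w, X.xi l w)) := by
  obtain ⟨l0, h0⟩ := h.exists_ge
  obtain ⟨g, hg⟩ := h0 (max l0 l) (le_max_left _ _)
  obtain ⟨g', hg'⟩ := X.fac_le (le_max_right l0 l)
  refine ⟨max l0 l, fun p => (g p, g' p.2), fun w => ?_⟩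
  simp only [← hg w, ← hg' w]

/-- more information in the condition -/
theorem hh_anti {R : Ω → α} {S : Ω → β} {T : Ω → γ} (hR : FM R) (hS : FM S) (hT : FM T)
    (h : Det X S T) : hh P X R S ≤ hh P X R T :=
  le_hh fun l => hh_le_of_det hR hS (b8_det_pair h l)

/-- `R` is a function of `R'`, `S` and a partition of `X` -/
theorem hh_mono {R : Ω → α} {R' : Ω → γ} {S : Ω → β} (hR : FM R) (hR' : FM R') (hS : FM S)
    (h : Det X (fun w => (R' w, S w)) R) : hh P X R S ≤ hh P X R' S := by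
  refine le_hh fun l => ?_
  obtain ⟨l0, h0⟩ := h.exists_ge
  obtain ⟨g, hg⟩ := h0 (max l0 l) (le_max_left _ _)
  have e : R = fun w => (fun p : γ × (β × X.I (max l0 l)) => g ((p.1, p.2.1), p.2.2))
      (R' w, (S w, X.xi (max l0 l) w)) := funext fun w => hg w
  have h1 := hh_le (P := P) (X := X) hR hS (max l0 l)
  have h2 : Hc P R (fun w => (S w, X.xi (max l0 l) w)) ≤
      Hc P R' (fun w => (S w, X.xi (max l0 l) w)) := by
    have h3 := Hc_map_le (P := P) hR' (hS.prod (X.meas (max l0 l)))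
      (fun p : γ × (β × X.I (max l0 l)) => g ((p.1, p.2.1), p.2.2))
    rwa [← e] at h3
  exact h1.trans (h2.trans (Hc_xi_antitone hR' hS (le_max_right l0 l)))

/-- `R` is a function of `S` and a partition of `X` -/
theorem hh_eq_zero {R : Ω → α} {S : Ω → β} (hR : FM R) (hS : FM S) (h : Det X S R) :
    hh P X R S = 0 := by
  refine le_antisymm ?_ (hh_nonneg hR hS)
  have hc : FM (fun _ : Ω => ()) := FM.const ()
  have h1 : hh P X R S ≤ hh P X (fun _ : Ω => ()) S := by
    refine hh_mono hR hc hS ?_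
    obtain ⟨l, g, hg⟩ := h
    exact ⟨l, fun p => g (p.1.2, p.2), fun w => hg w⟩
  have h2 := hh_le_log_card (P := P) (X := X) hc hS
  simp only [Fintype.card_unit, Nat.cast_one, log_one] at h2
  exact h1.trans h2

/-- symmetry of the chain rule -/
theorem hh_swap {R : Ω → α} {S : Ω → β} {T : Ω → γ} (hR : FM R) (hS : FM S) (hT : FM T) :
    hh P X R T + hh P X S (fun w => (R w, T w)) = hh P X S T + hh P X R (fun w => (S w, T w)) := by
  have h1 := hh_chain (P := P) (X := X) hR hS hT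
  have h2 := hh_chain (P := P) (X := X) hS hR hT
  have h3 : hh P X (fun w => (R w, S w)) T = hh P X (fun w => (S w, R w)) T := by
    unfold hh
    refine iInf_congr fun l => ?_
    exact Hc_comp_inj_left (P := P) (fun w => (S w, R w)) (fun w => (T w, X.xi l w))
      (g := Prod.swap) Prod.swap_injective
  rw [← h1, ← h2, h3]

/-- subadditivity -/
theorem hh_prod_le {R : Ω → α} {S : Ω → β} {T : Ω → γ} (hR : FM R) (hS : FM S) (hT : FM T) :
    hh P X (fun w => (R w, S w)) T ≤ hh P X R T + hh P X S T := by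
  rw [hh_chain hR hS hT]
  have h1 : hh P X R (fun w => (S w, T w)) ≤ hh P X R T :=
    hh_anti hR (hS.prod hT) hT ⟨0, fun p => p.1.2, fun w => rfl⟩
  linarith

/-- stationarity: if `S' ∘ b` and all `X.xi l ∘ b` are functions of `S` and a partition of `X` -/
theorem hh_comp_le {R : Ω → α} {S : Ω → β} {S' : Ω → γ} (hR : FM R) (hS : FM S) (hS' : FM S')
    {b : Ω → Ω} (hb : MeasurePreserving b P P) (h : Adapted X b S S') :
    hh P X (fun w => R (b w)) S ≤ hh P X R S' := by
  refine le_hh fun l => ?_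
  rw [← Hc_mp hR (hS'.prod (X.meas l)) hb]
  exact hh_le_of_det (hR.comp_measurable hb.measurable) hS (h l)

theorem hh_congr_ae {R R' : Ω → α} {S S' : Ω → β} (h : R =ᵐ[P] R') (h' : S =ᵐ[P] S') :
    hh P X R S = hh P X R' S' := by
  unfold hh
  refine iInf_congr fun l => Hc_congr_ae h ?_
  filter_upwards [h'] with w hw
  rw [hw]

/-- counting lemma: on each atom of `S` and of one partition of `X`, intersected with `G`, the
function `R` takes at most `N` values -/
theorem hh_counting {R : Ω → α} {S : Ω → β} (hR : FM R) (hS : FM S) {G : Set Ω}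
    (hG : MeasurableSet G) {η : ℝ} (hη : P.real Gᶜ ≤ η) (hη2 : η ≤ 1 / 2) {N : ℕ}
    (hN : 0 < N) (l : ℕ) (hcount : ∀ b c, (R '' (G ∩ S ⁻¹' {b} ∩ X.xi l ⁻¹' {c})).ncard ≤ N) :
    hh P X R S ≤ binEntropy η + log N + η * log (Fintype.card α) := by
  refine (hh_le hR hS l).trans (Hc_counting hR (hS.prod (X.meas l)) hG hη hη2 hN ?_)
  rintro ⟨b, c⟩
  have e : G ∩ (fun w => (S w, X.xi l w)) ⁻¹' {(b, c)} = G ∩ S ⁻¹' {b} ∩ X.xi l ⁻¹' {c} := by
    ext w
    simp only [Set.mem_inter_iff, Set.mem_preimage, Set.mem_singleton_iff, Prod.mk.injEq]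
    tauto
  rw [e]
  exact hcount b c

/-- counting lemma with an extra partition `E`: on each atom of `(S, E)` and of one partition of
`X`, intersected with `G`, the function `R` takes at most `N` values -/
theorem hh_counting_extra {R : Ω → α} {S : Ω → β} {E : Ω → γ} (hR : FM R) (hS : FM S)
    (hE : FM E) {G : Set Ω}
    (hG : MeasurableSet G) {η : ℝ} (hη : P.real Gᶜ ≤ η) (hη2 : η ≤ 1 / 2) {N : ℕ}
    (hN : 0 < N) (l : ℕ)
    (hcount : ∀ b e c, (R '' (G ∩ S ⁻¹' {b} ∩ E ⁻¹' {e} ∩ X.xi l ⁻¹' {c})).ncard ≤ N) :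
    hh P X R S ≤ binEntropy η + log N + log (Fintype.card γ) + η * log (Fintype.card α) := by
  have h1 : hh P X R S ≤ hh P X (fun w => (R w, E w)) S :=
    hh_mono hR (hR.prod hE) hS ⟨0, fun p => p.1.1.1, fun w => rfl⟩
  have h2 := hh_chain (P := P) (X := X) hR hE hS
  have h3 := hh_le_log_card (P := P) (X := X) hE hS
  have h4 : hh P X R (fun w => (E w, S w)) ≤
      binEntropy η + log N + η * log (Fintype.card α) := by
    refine hh_counting hR (hE.prod hS) hG hη hη2 hN l ?_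
    rintro ⟨e, b⟩ c
    have e1 : G ∩ (fun w => (E w, S w)) ⁻¹' {(e, b)} ∩ X.xi l ⁻¹' {c} =
        G ∩ S ⁻¹' {b} ∩ E ⁻¹' {e} ∩ X.xi l ⁻¹' {c} := by
      ext w
      simp only [Set.mem_inter_iff, Set.mem_preimage, Set.mem_singleton_iff, Prod.mk.injEq]
      tauto
    rw [e1]
    exact hcount b e c
  linarith

/-- `R` uniform and independent of `S` and of all the partitions -/
theorem hh_uniform {R : Ω → α} {S : Ω → β} [Nonempty α] (hR : FM R) (hS : FM S)
    (h : ∀ l a b c, P.real (R ⁻¹' {a} ∩ (S ⁻¹' {b} ∩ X.xi l ⁻¹' {c}))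
      = P.real (S ⁻¹' {b} ∩ X.xi l ⁻¹' {c}) / Fintype.card α) :
    hh P X R S = log (Fintype.card α) := by
  refine le_antisymm (hh_le_log_card hR hS) (le_hh fun l => ?_)
  refine (Hc_uniform hR (hS.prod (X.meas l)) ?_).ge
  rintro a ⟨b, c⟩
  have e1 : (fun w => (R w, (fun w => (S w, X.xi l w)) w)) ⁻¹' {(a, (b, c))} =
      R ⁻¹' {a} ∩ (S ⁻¹' {b} ∩ X.xi l ⁻¹' {c}) := by
    ext w
    simp only [Set.mem_inter_iff, Set.mem_preimage, Set.mem_singleton_iff, Prod.mk.injEq]
  have e2 : (fun w => (S w, X.xi l w)) ⁻¹' {(b, c)} = S ⁻¹' {b} ∩ X.xi l ⁻¹' {c} := by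
    ext w
    simp only [Set.mem_inter_iff, Set.mem_preimage, Set.mem_singleton_iff, Prod.mk.injEq]
  rw [e1, e2]
  exact h l a b c

end H88.ENT
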