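import Pool.Agent.H88.ENT.B8

/-!
# ENT.B9: words along an orbit and the block inequality (h23 4.7, first half of (I1))

`Adapted X b S S`: `S ∘ b` and all the partitions of `X` composed with `b` are functions of `S` and
of a partition of `X`.  Iterates of `b` are adapted too.
-/

namespace H88.ENT

open MeasureTheory Real

variable {Ω : Type*} [MeasurableSpace Ω] {P : Measure Ω} [IsProbabilityMeasure P] {X : Filt Ω}
  {α β γ : Type*} [Fintype α] [Fintype β] [Fintype γ]

theorem Adapted.iterate {b : Ω → Ω} {S : Ω → β} (h : Adapted X b S S) (n : ℕ) :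
    Adapted X (b^[n]) S S := by
  induction n with
  | zero => exact fun l => ⟨l, id, fun w => rfl⟩
  | succ n ih =>
    intro l
    obtain ⟨l', g, hg⟩ := h l
    obtain ⟨l'', g', hg'⟩ := ih l'
    refine ⟨l'', fun p => g (g' p), fun w => ?_⟩
    show (S (b^[n + 1] w), X.xi l (b^[n + 1] w)) = g (g' (S w, X.xi l'' w))
    rw [← hg' w, ← hg (b^[n] w)]
    simp only [Function.iterate_succ_apply']

/-- subadditivity of the entropies of words -/
theorem hh_word_add {Z : Ω → α} {S : Ω → β} (hZ : FM Z) (hS : FM S) {b : Ω → Ω}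
    (hb : MeasurePreserving b P P) (h : Adapted X b S S) (m n : ℕ) :
    hh P X (word Z b (m + n)) S ≤ hh P X (word Z b m) S + hh P X (word Z b n) S := by
  have hW := hZ.word hb.measurable
  have hbm := hb.iterate m
  have hW' : FM (fun w => word Z b n (b^[m] w)) := (hW n).comp_measurable hbm.measurable
  have h1 : hh P X (word Z b (m + n)) S
      ≤ hh P X (fun w => (word Z b m w, word Z b n (b^[m] w))) S := by
    refine hh_mono (hW (m + n)) ((hW m).prod hW') hS
      ⟨0, fun p => Fin.addCases (fun j => p.1.1.1 j) (fun j => p.1.1.2 j), fun w => ?_⟩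
    funext i
    refine Fin.addCases (fun j => ?_) (fun j => ?_) i
    · simp only [Fin.addCases_left, word, Fin.val_castAdd]
    · simp only [Fin.addCases_right, word, Fin.val_natAdd]
      rw [← Function.iterate_add_apply, Nat.add_comm m]
  have h2 := hh_prod_le (P := P) (X := X) (hW m) hW' hS
  have h3 := hh_comp_le (hW n) hS hS hbm (h.iterate m)
  linarith

theorem hh_word_mul {Z : Ω → α} {S : Ω → β} (hZ : FM Z) (hS : FM S) {b : Ω → Ω}
    (hb : MeasurePreserving b P P) (h : Adapted X b S S) (M L : ℕ) :
    hh P X (word Z b (M * L)) S ≤ M * hh P X (word Z b L) S := by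
  induction M with
  | zero =>
    have h1 := hh_le_log_card (P := P) (X := X) ((hZ.word hb.measurable) (0 * L)) hS
    simpa using h1
  | succ M ih =>
    have e : (M + 1) * L = M * L + L := Nat.succ_mul M L
    rw [e]
    have h1 := hh_word_add hZ hS hb h (M * L) L
    push_cast
    linarith

/-- block inequality: the information that a word of length `L` has on `S` -/
theorem hh_block {Z : Ω → α} {S : Ω → β} {Y : Ω → γ} (hZ : FM Z) (hS : FM S) (hY : FM Y)
    {b : Ω → Ω} (hb : MeasurePreserving b P P)
    (h : Adapted X b (fun w => (S w, Y w)) (fun w => (S w, Y w))) (L : ℕ) {M : ℕ} (hM : 0 < M) :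
    hh P X S Y - hh P X S (fun w => (word Z b L w, Y w))
      ≤ hh P X (word Z b L) Y - hh P X (word Z b (M * L)) Y / M + hh P X S Y / M := by
  have hW := hZ.word hb.measurable
  have hM' : (0 : ℝ) < M := Nat.cast_pos.2 hM
  have hSY := hS.prod hY
  have h1 := hh_swap (P := P) (X := X) (hW L) hS hY
  have h2 := hh_swap (P := P) (X := X) (hW (M * L)) hS hY
  have h3 := hh_word_mul hZ hSY hb h M L
  have h4 := hh_nonneg (P := P) (X := X) hS ((hW (M * L)).prod hY)
  have h5 : (hh P X (word Z b (M * L)) Y - hh P X S Y) / M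
      ≤ hh P X (word Z b L) (fun w => (S w, Y w)) := by
    rw [div_le_iff₀ hM']
    linarith
  rw [sub_div] at h5
  linarith

end H88.ENT
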