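import Pool.Agent.H88.ENT.B6

/-!
# ENT.Cpl: coupling of a finite valued function with its image under a permutation

`coupling_of_tv`: for `V : Ω → α` and a permutation `e` of `α` let `A a = {V = a}` and
`Q = ∑ a, min (P (A a)) (P (A (e a))) / (P (A a) * P (A (e a)))
     • (P.restrict (A a)).prod (P.restrict (A (e a)))`.
`tv_of_count`: `gibbs_sqrt` and `tv_sqrt` for `x = law of (R, U)` and
`y (r, u) = P (R = r) / N` on `A`, zero off `A`; `y ∘ e = y`.
-/

namespace H88.ENT

open MeasureTheory Real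

private theorem cpl_sum {Ω : Type*} [MeasurableSpace Ω] {P : Measure Ω}
    [IsProbabilityMeasure P] {α : Type*} [Fintype α] {V : Ω → α} (hV : FM V) {s : Set Ω}
    (hs : MeasurableSet s) : ∑ a, P (s ∩ V ⁻¹' {a}) = P s := by
  classical
  rw [← measure_biUnion_finset]
  · congr 1
    ext w
    simp
  · intro a _ b _ hab
    refine Set.disjoint_left.2 fun w h1 h2 => hab ?_
    exact h1.2.symm.trans h2.2
  · intro a _
    exact hs.inter (hV a)

private theorem cpl_coef (x y : ℝ) (hx : 0 ≤ x) (hy : 0 ≤ y) :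
    min x y / (x * y) * y ≤ 1 ∧ min x y / (x * y) * x ≤ 1 ∧
      min x y / (x * y) * (x * y) = min x y ∧ 0 ≤ min x y / (x * y) := by
  rcases hx.eq_or_lt with h | h
  · subst h
    simp [hy]
  · rcases hy.eq_or_lt with h' | h'
    · subst h'
      simp [hx]
    · have hm : 0 < min x y := lt_min h h'
      refine ⟨?_, ?_, ?_, by positivity⟩
      · rw [div_mul_eq_mul_div, div_le_one (by positivity)]
        exact mul_le_mul_of_nonneg_right (min_le_left _ _) h'.le
      · rw [div_mul_eq_mul_div, div_le_one (by positivity)]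
        nlinarith [min_le_right x y]
      · field_simp

/-- if the laws of `V` and of `e⁻¹ ∘ V` are close in total variation then there are pairs of points
`(w, w')` with `V w' = e (V w)`, both marginals at most `P` -/
theorem coupling_of_tv {Ω : Type*} [MeasurableSpace Ω] {P : Measure Ω} [IsProbabilityMeasure P]
    {α : Type*} [Fintype α] {V : Ω → α} (hV : FM V) (e : Equiv.Perm α) {ε : ℝ}
    (h : ∑ a, |P.real (V ⁻¹' {a}) - P.real (V ⁻¹' {e a})| ≤ ε) :
    ∃ Q : Measure (Ω × Ω), Q.map Prod.fst ≤ P ∧ Q.map Prod.snd ≤ P ∧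
      (∀ᵐ z ∂Q, V z.2 = e (V z.1)) ∧ 1 - ε / 2 ≤ Q.real Set.univ := by
  classical
  set A : α → Set Ω := fun a => V ⁻¹' {a} with hA
  set r : α → ℝ := fun a => P.real (A a) with hr
  have hr0 : ∀ a, 0 ≤ r a := fun a => measureReal_nonneg
  have hrP : ∀ a, P (A a) = ENNReal.ofReal (r a) := fun a => by
    rw [hr]; simp
  set κ : α → ℝ := fun a => min (r a) (r (e a)) / (r a * r (e a)) with hκ
  have hκ1 : ∀ a, κ a * r (e a) ≤ 1 := fun a => (cpl_coef _ _ (hr0 a) (hr0 (e a))).1
  have hκ2 : ∀ a, κ a * r a ≤ 1 := fun a => (cpl_coef _ _ (hr0 a) (hr0 (e a))).2.1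
  have hκ3 : ∀ a, κ a * (r a * r (e a)) = min (r a) (r (e a)) :=
    fun a => (cpl_coef _ _ (hr0 a) (hr0 (e a))).2.2.1
  have hκ0 : ∀ a, 0 ≤ κ a := fun a => (cpl_coef _ _ (hr0 a) (hr0 (e a))).2.2.2
  let Q : Measure (Ω × Ω) :=
    ∑ a, ENNReal.ofReal (κ a) • (P.restrict (A a)).prod (P.restrict (A (e a)))
  have hQ : ∀ s, Q s = ∑ a, ENNReal.ofReal (κ a) *
      ((P.restrict (A a)).prod (P.restrict (A (e a)))) s := by
    intro s
    simp [Q, Measure.finsetSum_apply]
  have hrect : ∀ s t, MeasurableSet s → MeasurableSet t →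
      Q (s ×ˢ t) = ∑ a, ENNReal.ofReal (κ a) * (P (s ∩ A a) * P (t ∩ A (e a))) := by
    intro s t hs ht
    rw [hQ]
    refine Finset.sum_congr rfl fun a _ => ?_
    rw [Measure.prod_prod, Measure.restrict_apply hs, Measure.restrict_apply ht]
  have huniv : ∀ a, P (Set.univ ∩ A a) = ENNReal.ofReal (r a) := fun a => by
    rw [Set.univ_inter, hrP]
  refine ⟨Q, ?_, ?_, ?_, ?_⟩
  · refine Measure.le_iff.2 fun s hs => ?_
    rw [Measure.map_apply measurable_fst hs]
    have e1 : (Prod.fst ⁻¹' s : Set (Ω × Ω)) = s ×ˢ Set.univ := by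
      ext z; simp
    rw [e1, hrect s _ hs MeasurableSet.univ]
    refine (Finset.sum_le_sum fun a _ => ?_).trans (cpl_sum hV hs).le
    rw [huniv]
    calc ENNReal.ofReal (κ a) * (P (s ∩ A a) * ENNReal.ofReal (r (e a)))
        = ENNReal.ofReal (κ a * r (e a)) * P (s ∩ A a) := by
          rw [ENNReal.ofReal_mul (hκ0 a)]; ring
      _ ≤ 1 * P (s ∩ A a) := by
          gcongr
          exact ENNReal.ofReal_le_one.2 (hκ1 a)
      _ = P (s ∩ V ⁻¹' {a}) := by rw [one_mul]
  · refine Measure.le_iff.2 fun s hs => ?_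
    rw [Measure.map_apply measurable_snd hs]
    have e1 : (Prod.snd ⁻¹' s : Set (Ω × Ω)) = Set.univ ×ˢ s := by
      ext z; simp
    rw [e1, hrect _ s MeasurableSet.univ hs]
    have e2 : ∑ a, P (s ∩ V ⁻¹' {e a}) = P s := by
      rw [← cpl_sum (P := P) hV hs]
      exact Equiv.sum_comp e (fun a => P (s ∩ V ⁻¹' {a}))
    refine (Finset.sum_le_sum fun a _ => ?_).trans e2.le
    rw [huniv]
    calc ENNReal.ofReal (κ a) * (ENNReal.ofReal (r a) * P (s ∩ A (e a)))
        = ENNReal.ofReal (κ a * r a) * P (s ∩ A (e a)) := by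
          rw [ENNReal.ofReal_mul (hκ0 a)]; ring
      _ ≤ 1 * P (s ∩ A (e a)) := by
          gcongr
          exact ENNReal.ofReal_le_one.2 (hκ2 a)
      _ = P (s ∩ V ⁻¹' {e a}) := by rw [one_mul]
  · rw [ae_iff, hQ]
    refine Finset.sum_eq_zero fun a _ => ?_
    rw [Measure.prod_restrict]
    have h0 : ∀ᵐ z ∂((P.prod P).restrict (A a ×ˢ A (e a))), V z.2 = e (V z.1) := by
      refine ae_restrict_of_forall_mem ((hV a).prod (hV (e a))) fun z hz => ?_
      have h1 : V z.1 = a := hz.1
      have h2 : V z.2 = e a := hz.2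
      rw [h1, h2]
    rw [ae_iff] at h0
    rw [h0, mul_zero]
  · have h1 : Q Set.univ = ENNReal.ofReal (∑ a, min (r a) (r (e a))) := by
      have e1 : (Set.univ : Set (Ω × Ω)) = Set.univ ×ˢ Set.univ := by simp
      rw [e1, hrect _ _ MeasurableSet.univ MeasurableSet.univ,
        ENNReal.ofReal_sum_of_nonneg fun a _ => le_min (hr0 a) (hr0 (e a))]
      refine Finset.sum_congr rfl fun a _ => ?_
      rw [huniv, huniv, ← ENNReal.ofReal_mul (hr0 a), ← ENNReal.ofReal_mul (hκ0 a), hκ3]
    have h2 : 0 ≤ ∑ a, min (r a) (r (e a)) :=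
      Finset.sum_nonneg fun a _ => le_min (hr0 a) (hr0 (e a))
    have h3 : Q.real Set.univ = ∑ a, min (r a) (r (e a)) := by
      rw [Measure.real, h1, ENNReal.toReal_ofReal h2]
    rw [h3]
    have h4 : ∀ a, min (r a) (r (e a)) = (r a + r (e a) - |r a - r (e a)|) / 2 := by
      intro a
      rcases le_total (r a) (r (e a)) with h7 | h7
      · rw [min_eq_left h7, abs_of_nonpos (sub_nonpos.2 h7)]; ring
      · rw [min_eq_right h7, abs_of_nonneg (sub_nonneg.2 h7)]; ring
    have h5 : ∑ a, r a = 1 := sum_real_fibre hV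
    have h6 : ∑ a, r (e a) = 1 := by
      rw [← h5]
      exact Equiv.sum_comp e r
    simp_rw [h4]
    rw [← Finset.sum_div, Finset.sum_sub_distrib, Finset.sum_add_distrib, h5, h6]
    linarith

/-- `U` takes at most `N` values given `R` and has nearly maximal conditional entropy; `e` permutes
the possible pairs `(R, U)` and does not change `R` -/
theorem tv_of_count {Ω : Type*} [MeasurableSpace Ω] {P : Measure Ω} [IsProbabilityMeasure P]
    {α β : Type*} [Fintype α] [Fintype β] [DecidableEq α] [DecidableEq β]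
    {U : Ω → α} {R : Ω → β} (hU : FM U) (hR : FM R)
    (A : Finset (β × α)) (hA : ∀ w, (R w, U w) ∈ A) {N : ℕ} (hN : 0 < N)
    (hcard : ∀ r, (A.filter (fun x => x.1 = r)).card ≤ N)
    (e : Equiv.Perm (β × α)) (he : ∀ x, (e x).1 = x.1) (heA : ∀ x, x ∈ A → e x ∈ A) :
    ∑ x : β × α, |P.real ((fun w => (R w, U w)) ⁻¹' {x})
        - P.real ((fun w => (R w, U w)) ⁻¹' {e x})|
      ≤ 4 * √(log N - Hc P U R) := by
  have hN' : (0 : ℝ) < N := Nat.cast_pos.2 hN
  set x : β × α → ℝ := fun q => P.real ((fun w => (R w, U w)) ⁻¹' {q}) with hx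
  set y : β × α → ℝ := fun q => if q ∈ A then P.real (R ⁻¹' {q.1}) / N else 0 with hy
  have hx0 : ∀ q ∈ (Finset.univ : Finset (β × α)), 0 ≤ x q := fun q _ => measureReal_nonneg
  have hy0 : ∀ q ∈ (Finset.univ : Finset (β × α)), 0 ≤ y q := by
    intro q _
    simp only [hy]
    split_ifs
    · exact div_nonneg measureReal_nonneg hN'.le
    · exact le_rfl
  have hmarg : ∀ r : β, ∑ a, x (r, a) = P.real (R ⁻¹' {r}) := by
    intro r
    rw [← sum_real_pair (P := P) hU hR r]
    refine Finset.sum_congr rfl fun a _ => ?_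
    simp only [hx]
    congr 1
    ext w
    simp only [Set.mem_preimage, Set.mem_singleton_iff, Prod.mk.injEq]
    tauto
  have hxA : ∀ q, q ∉ A → x q = 0 := by
    intro q hq
    simp only [hx]
    have h1 : (fun w => (R w, U w)) ⁻¹' {q} = ∅ := by
      ext w
      simp only [Set.mem_preimage, Set.mem_singleton_iff, Set.mem_empty_iff_false, iff_false]
      intro h2
      exact hq (h2 ▸ hA w)
    rw [h1, measureReal_empty]
  have hxr : ∀ q, P.real (R ⁻¹' {q.1}) = 0 → x q = 0 := by
    rintro ⟨r, a⟩ h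
    rw [← hmarg r] at h
    exact (Finset.sum_eq_zero_iff_of_nonneg fun a _ => measureReal_nonneg).1 h a
      (Finset.mem_univ a)
  have hxy : ∀ q ∈ (Finset.univ : Finset (β × α)), y q = 0 → x q = 0 := by
    intro q _ h
    by_cases hq : q ∈ A
    · simp only [hy, if_pos hq] at h
      rw [div_eq_zero_iff, or_iff_left hN'.ne'] at h
      exact hxr q h
    · exact hxA q hq
  have hx1 : ∑ q, x q = 1 := by
    rw [Fintype.sum_prod_type, Finset.sum_congr rfl fun r _ => hmarg r]
    exact sum_real_fibre hR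
  have hy1 : ∑ q, y q ≤ 1 := by
    rw [Fintype.sum_prod_type, ← sum_real_fibre (P := P) hR]
    refine Finset.sum_le_sum fun r _ => ?_
    simp only [hy]
    rw [← Finset.sum_filter, Finset.sum_const, nsmul_eq_mul]
    have h1 : ((Finset.univ.filter fun a => (r, a) ∈ A).card : ℝ) ≤ N := by
      refine le_trans ?_ (Nat.cast_le.2 (hcard r))
      refine Nat.cast_le.2 ?_
      refine Finset.card_le_card_of_injOn (fun a => (r, a)) ?_ ?_
      · intro a ha
        have ha' := (Finset.mem_filter.1 ha).2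
        exact Finset.mem_filter.2 ⟨ha', rfl⟩
      · intro a _ b _ hab
        exact (Prod.mk.inj hab).2
    calc ((Finset.univ.filter fun a => (r, a) ∈ A).card : ℝ) * (P.real (R ⁻¹' {r}) / N)
        ≤ N * (P.real (R ⁻¹' {r}) / N) :=
          mul_le_mul_of_nonneg_right h1 (div_nonneg measureReal_nonneg hN'.le)
      _ = P.real (R ⁻¹' {r}) := by field_simp
  have hD : ∑ q ∈ (Finset.univ : Finset (β × α)), (x q * log (x q) - x q * log (y q))
      = log N - Hc P U R := by
    have h1 : ∀ q, x q * log (x q) - x q * log (y q)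
        = - negMulLog (x q) - x q * log (P.real (R ⁻¹' {q.1})) + x q * log N := by
      intro q
      by_cases h0 : x q = 0
      · rw [h0]; simp
      · have hq : q ∈ A := by
          by_contra hq
          exact h0 (hxA q hq)
        have hr : P.real (R ⁻¹' {q.1}) ≠ 0 := fun h => h0 (hxr q h)
        simp only [hy, if_pos hq]
        rw [log_div hr hN'.ne', negMulLog]
        ring
    rw [Finset.sum_congr rfl fun q _ => h1 q, Finset.sum_add_distrib, Finset.sum_sub_distrib,
      ← Finset.sum_mul, hx1, one_mul]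
    have h2 : ∑ q : β × α, x q * log (P.real (R ⁻¹' {q.1})) = - H P R := by
      rw [Fintype.sum_prod_type]
      unfold H
      rw [← Finset.sum_neg_distrib]
      refine Finset.sum_congr rfl fun r _ => ?_
      simp only
      rw [← Finset.sum_mul, hmarg, negMulLog]
      ring
    have h3 : ∑ q : β × α, - negMulLog (x q) = - H P (fun w => (U w, R w)) := by
      rw [Finset.sum_neg_distrib]
      congr 1
      have h4 := H_comp_inj (P := P) (fun w => (U w, R w)) (g := Prod.swap) Prod.swap_injective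
      rw [← h4]
      rfl
    rw [h2, h3]
    unfold Hc
    ring
  have hg := gibbs_sqrt Finset.univ x y hx0 hy0 hxy
  rw [hD, Finset.sum_sub_distrib, hx1] at hg
  have hg' : ∑ a, (√(x a) - √(y a)) ^ 2 ≤ log N - Hc P U R := by linarith
  have ht := (tv_sqrt Finset.univ x y hx0 hy0 hx1.le hy1).trans
    (mul_le_mul_of_nonneg_left (sqrt_le_sqrt hg') zero_le_two)
  have hAe : ∀ q, e q ∈ A → q ∈ A := by
    intro q hq
    have h1 : A.map e.toEmbedding = A := by
      refine Finset.eq_of_subset_of_card_le ?_ (by rw [Finset.card_map])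
      intro z hz
      obtain ⟨z', hz', rfl⟩ := Finset.mem_map.1 hz
      exact heA z' hz'
    rw [← h1] at hq
    obtain ⟨z', hz', h2⟩ := Finset.mem_map.1 hq
    have h3 : z' = q := e.injective h2
    rw [← h3]
    exact hz'
  have hye : ∀ q, y (e q) = y q := by
    intro q
    simp only [hy]
    by_cases hq : q ∈ A
    · rw [if_pos (heA q hq), if_pos hq, he]
    · rw [if_neg (fun h => hq (hAe q h)), if_neg hq]
  have h1 : ∀ q, |x q - x (e q)| ≤ |x q - y q| + |x (e q) - y (e q)| := by
    intro q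
    rw [hye, abs_sub_comm (x (e q))]
    exact abs_sub_le _ _ _
  have h2 : ∑ q, |x (e q) - y (e q)| = ∑ q, |x q - y q| :=
    Equiv.sum_comp e (fun q => |x q - y q|)
  calc ∑ q, |x q - x (e q)| ≤ ∑ q, (|x q - y q| + |x (e q) - y (e q)|) :=
        Finset.sum_le_sum fun q _ => h1 q
    _ = ∑ q, |x q - y q| + ∑ q, |x q - y q| := by rw [Finset.sum_add_distrib, h2]
    _ ≤ 4 * √(log N - Hc P U R) := by linarith

end H88.ENT
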