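import Mathlib

/-!
# Entropy toolbox (part ENT of MP_d9606f_gt): definitions

Finite valued functions on a probability space, Shannon entropy with the natural logarithm,
conditional entropy as a difference, a refining sequence of finite partitions `X : Filt Ω`, and
`hh P X R S`, the infimum over `l` of the entropy of `R` given `S` and the `l`-th partition.
No measurable space is put on the finite types: `FM R` says that all fibres of `R` are measurable.
-/

namespace H88.ENT

open MeasureTheory

/-- all fibres of `R` are measurable sets -/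
def FM {Ω α : Type*} [MeasurableSpace Ω] (R : Ω → α) : Prop :=
  ∀ a, MeasurableSet (R ⁻¹' {a})

/-- Shannon entropy (natural logarithm) of a function with values in a finite type -/
noncomputable def H {Ω : Type*} [MeasurableSpace Ω] (P : Measure Ω) {α : Type*} [Fintype α]
    (R : Ω → α) : ℝ :=
  ∑ a, Real.negMulLog (P.real (R ⁻¹' {a}))

/-- conditional entropy of `R` given `S` -/
noncomputable def Hc {Ω : Type*} [MeasurableSpace Ω] (P : Measure Ω) {α β : Type*} [Fintype α]
    [Fintype β] (R : Ω → α) (S : Ω → β) : ℝ :=
  H P (fun w => (R w, S w)) - H P S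

/-- a refining sequence of finite measurable partitions -/
structure Filt (Ω : Type*) [MeasurableSpace Ω] where
  /-- the index type of the `l`-th partition -/
  I : ℕ → Type
  /-- it is finite -/
  ft : ∀ l, Fintype (I l)
  /-- the `l`-th partition -/
  xi : ∀ l, Ω → I l
  /-- its cells are measurable -/
  meas : ∀ l, FM (xi l)
  /-- the partition `l + 1` refines the partition `l` -/
  fac : ∀ l, ∃ g : I (l + 1) → I l, ∀ w, xi l w = g (xi (l + 1) w)

attribute [instance] Filt.ft

/-- entropy of `R` given `S` and all the partitions of `X`: the infimum over `l` of the entropy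
of `R` given `S` and the `l`-th partition -/
noncomputable def hh {Ω : Type*} [MeasurableSpace Ω] (P : Measure Ω) (X : Filt Ω) {α β : Type*}
    [Fintype α] [Fintype β] (R : Ω → α) (S : Ω → β) : ℝ :=
  ⨅ l, Hc P R (fun w => (S w, X.xi l w))

/-- `T` is a function of `S` and of one of the partitions of `X` -/
def Det {Ω : Type*} [MeasurableSpace Ω] (X : Filt Ω) {α β : Type*} (S : Ω → β) (T : Ω → α) :
    Prop :=
  ∃ l, ∃ g : β × X.I l → α, ∀ w, T w = g (S w, X.xi l w)

/-- `b` does not lose information: `S ∘ b` and all the partitions `X.xi l ∘ b` are functions of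
`S` and of a partition of `X` -/
def Adapted {Ω : Type*} [MeasurableSpace Ω] (X : Filt Ω) {β γ : Type*} (b : Ω → Ω)
    (S : Ω → β) (S' : Ω → γ) : Prop :=
  ∀ l, Det X S (fun w => (S' (b w), X.xi l (b w)))

/-- the word of length `n` of `Z` along the orbit of `b` -/
def word {Ω α : Type*} (Z : Ω → α) (b : Ω → Ω) (n : ℕ) : Ω → (Fin n → α) :=
  fun w i => Z (b^[i] w)

/-- the first `n` digits -/
def pre {Ω α : Type*} (S : ℕ → Ω → α) (n : ℕ) : Ω → (Fin n → α) :=
  fun w i => S i w

/-- the digits `i, i + 1, ..., i + q - 1` -/
def blk {Ω α : Type*} (S : ℕ → Ω → α) (i q : ℕ) : Ω → (Fin q → α) :=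
  fun w j => S (i + j) w

end H88.ENT
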